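import Pool.Agent.SB.Defs
import Pool.Agent.H74.SB.Len

/-!
# SB Blow: the multiplicity of the strict transforms
-/

set_option autoImplicit false

open MvPowerSeries

noncomputable section

namespace Pool.Agent.SB

open Pool.Agent.H74.SB (M mem_M mem_M_order B B_eq ph dim finQ finrank_le_dim dim_ph dim_mono mul_mem_M mem_M_of_mul mon)

namespace Blow

theorem M_succ_le (K : ℕ) : M (K + 1) ≤ M 1 * M K := by
  intro f hf
  let g : R2 := fun d => coeff (d + Finsupp.single 0 1) f
  have hg : ∀ d, coeff d g = coeff (d + Finsupp.single 0 1) f := fun d => rfl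
  have hgM : g ∈ M K := by
    refine mem_M.2 fun i j hij => ?_
    rw [hg]
    have e : mon i j + Finsupp.single 0 1 = mon (i + 1) j := by
      rw [mon, mon, Finsupp.single_add]
      abel
    rw [e]
    exact mem_M.1 hf _ _ (by omega)
  have hX0 : (X 0 : R2) ∈ M 1 := by
    refine mem_M.2 fun i j hij => ?_
    have h1 : i = 0 := by omega
    have h2 : j = 0 := by omega
    subst h1 h2
    simp [mon]
  have hX1 : (X 1 : R2) ∈ M 1 := by
    refine mem_M.2 fun i j hij => ?_
    have h1 : i = 0 := by omega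
    have h2 : j = 0 := by omega
    subst h1 h2
    simp [mon]
  obtain ⟨h, hh⟩ : (X 1 : R2) ∣ f - X 0 * g := by
    refine X_dvd_iff.2 fun d hd => ?_
    rw [map_sub]
    by_cases h0 : d 0 = 0
    · have e : d = mon 0 0 := by rw [Pool.Agent.H74.SB.eq_mon d, h0, hd]
      have h1 : coeff d f = 0 := by rw [e]; exact mem_M.1 hf _ _ (by omega)
      have h2 : coeff d (X 0 * g) = 0 := by
        have := Pool.Agent.H74.SB.coeff_X_pow_mul_mon 1 g d
        rw [pow_one] at this
        rw [this, if_neg (by omega)]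
      rw [h1, h2, sub_zero]
    · have := Pool.Agent.H74.SB.coeff_X_pow_mul_mon 1 g d
      rw [pow_one] at this
      rw [this, if_pos (by omega), hg, sub_eq_zero]
      have e : mon (d 0 - 1) (d 1) + Finsupp.single 0 1 = mon (d 0 - 1 + 1) (d 1) := by
        rw [mon, mon, Finsupp.single_add]
        abel
      rw [e, Nat.sub_add_cancel (by omega), ← Pool.Agent.H74.SB.eq_mon d]
  have hX1o : (X 1 : R2).order = (1 : ℕ) := by
    classical
    refine le_antisymm ?_ hX1
    have : coeff (Finsupp.single 1 1) (X 1 : R2) ≠ 0 := by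
      rw [coeff_index_single_self_X]
      exact one_ne_zero
    simpa using order_le this
  have hhM : h ∈ M K := by
    refine mem_M_of_mul hX1o ?_
    rw [mul_comm, ← hh]
    exact Ideal.sub_mem _ hf (by rw [add_comm]; exact mul_mem_M hX0 hgM)
  have e : f = X 0 * g + X 1 * h := by rw [← hh]; ring
  rw [e]
  exact Ideal.add_mem _ (Ideal.mul_mem_mul hX0 hgM) (Ideal.mul_mem_mul hX1 hhM)

theorem M_eq_pow (K : ℕ) : M K = M 1 ^ K := by
  induction K with
  | zero =>
    rw [pow_zero, Ideal.one_eq_top]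
    refine eq_top_iff.2 fun f _ => mem_M.2 fun i j hij => by omega
  | succ K ih =>
    rw [pow_succ', ← ih]
    refine le_antisymm (M_succ_le K) (Ideal.mul_le.2 fun a ha b hb => ?_)
    rw [add_comm]
    exact mul_mem_M ha hb

theorem M_one_eq : M 1 = Ideal.span {X 0, X 1} := by
  refine le_antisymm ?_ ?_
  · intro f hf
    have h1 := M_succ_le 0 hf
    -- repeat the decomposition
    obtain ⟨g, hg⟩ : ∃ g : R2, X 1 ∣ f - X 0 * g := by
      refine ⟨fun d => coeff (d + Finsupp.single 0 1) f, ?_⟩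
      refine X_dvd_iff.2 fun d hd => ?_
      rw [map_sub]
      have key := Pool.Agent.H74.SB.coeff_X_pow_mul_mon 1 (fun d => coeff (d + Finsupp.single 0 1) f : R2) d
      rw [pow_one] at key
      rw [key]
      by_cases h0 : d 0 = 0
      · have e : d = mon 0 0 := by rw [Pool.Agent.H74.SB.eq_mon d, h0, hd]
        rw [if_neg (by omega), sub_zero, e]
        exact mem_M.1 hf _ _ (by omega)
      · rw [if_pos (by omega), sub_eq_zero]
        show coeff d f = coeff (mon (d 0 - 1) (d 1) + Finsupp.single 0 1) f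
        have e : mon (d 0 - 1) (d 1) + Finsupp.single 0 1 = mon (d 0 - 1 + 1) (d 1) := by
          rw [mon, mon, Finsupp.single_add]
          abel
        rw [e, Nat.sub_add_cancel (by omega), ← Pool.Agent.H74.SB.eq_mon d]
    obtain ⟨h, hh⟩ := hg
    exact Ideal.mem_span_pair.2 ⟨g, h, by rw [mul_comm h, ← hh]; ring⟩
  · rw [Ideal.span_le]
    rintro f (rfl | rfl)
    · refine mem_M.2 fun i j hij => ?_
      have h1 : i = 0 := by omega
      have h2 : j = 0 := by omega
      subst h1 h2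
      simp [mon]
    · refine mem_M.2 fun i j hij => ?_
      have h1 : i = 0 := by omega
      have h2 : j = 0 := by omega
      subst h1 h2
      simp [mon]

/-! ## the linear change -/

theorem hasSubst_L (t : ℂ) : HasSubst (S := ℂ) (![X 0, X 1 + C t * X 0] : Fin 2 → R2) :=
  hasSubst_of_constantCoeff_zero fun i => by fin_cases i <;> simp

/-- `f (x, y) ↦ f (x, y + t x)` -/
def L (t : ℂ) : R2 →ₐ[ℂ] R2 := substAlgHom (hasSubst_L t)

theorem L_X0 (t : ℂ) : L t (X 0) = X 0 := by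
  rw [L, substAlgHom_X]
  rfl

theorem L_X1 (t : ℂ) : L t (X 1) = X 1 + C t * X 0 := by
  rw [L, substAlgHom_X]
  rfl

theorem L_C (t c : ℂ) : L t (C c) = C c := by
  have : (C c : R2) = algebraMap ℂ R2 c := by rw [MvPowerSeries.algebraMap_apply]; rfl
  rw [this, AlgHom.commutes]

theorem B_X0 : B (X 0) = X 0 := by
  unfold B
  rw [substAlgHom_X]
  rfl

theorem B_X1 : B (X 1) = X 0 * X 1 := by
  unfold B
  rw [substAlgHom_X]
  rfl

theorem B_L (t : ℂ) (f : R2) : B (L t f) = bl t f := by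
  have ha := hasSubst_L t
  have hb : HasSubst (![X 0, X 0 * X 1] : Fin 2 → R2) := hasSubst_of_constantCoeff_zero fun s => by fin_cases s <;> simp
  have h1 : ∀ g, B g = subst (![X 0, X 0 * X 1] : Fin 2 → R2) g := fun g => by
    rw [← coe_substAlgHom hb]
    rfl
  have h2 : L t f = subst (![X 0, X 1 + C t * X 0] : Fin 2 → R2) f := by
    rw [← coe_substAlgHom ha]
    rfl
  have h3 : bl t f = subst (![X 0, X 0 * (X 1 + C t)] : Fin 2 → R2) f := by
    rw [← coe_substAlgHom (hasSubst_bl t)]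
    rfl
  rw [h1, h2, h3, subst_comp_subst_apply ha hb]
  congr 1
  funext i
  rw [← h1]
  fin_cases i
  · exact B_X0
  · show B (X 1 + C t * X 0) = X 0 * (X 1 + C t)
    have hC : B (C t) = C t := by
      have : (C t : R2) = algebraMap ℂ R2 t := by rw [MvPowerSeries.algebraMap_apply]; rfl
      rw [this, AlgHom.commutes]
    rw [map_add, map_mul, hC, B_X0, B_X1]
    ring

theorem L_L (s t : ℂ) (f : R2) : L s (L t f) = L (s + t) f := by
  have ha := hasSubst_L t
  have hb := hasSubst_L s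
  have h : ∀ (r : ℂ) (g : R2), L r g = subst (![X 0, X 1 + C r * X 0] : Fin 2 → R2) g := fun r g => by
    rw [← coe_substAlgHom (hasSubst_L r)]
    rfl
  rw [h s, h t, h (s + t), subst_comp_subst_apply ha hb]
  congr 1
  funext i
  rw [← h]
  fin_cases i
  · exact L_X0 s
  · show L s (X 1 + C t * X 0) = X 1 + C (s + t) * X 0
    rw [map_add, map_mul, L_C, L_X0, L_X1, map_add]
    ring

theorem L_zero (f : R2) : L 0 f = f := by
  have h : L 0 f = subst (![X 0, X 1 + C (0 : ℂ) * X 0] : Fin 2 → R2) f := by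
    rw [← coe_substAlgHom (hasSubst_L 0)]
    rfl
  rw [h]
  have e : (![X 0, X 1 + C (0 : ℂ) * X 0] : Fin 2 → R2) = X := by
    funext i
    fin_cases i
    · rfl
    · show X 1 + C (0 : ℂ) * X 0 = X 1
      rw [map_zero, zero_mul, add_zero]
  rw [e, subst_self]
  rfl

/-- the automorphism -/
def LE (t : ℂ) : R2 ≃ₐ[ℂ] R2 :=
  AlgEquiv.ofAlgHom (L t) (L (-t)) (by ext1 f; simp [L_L, L_zero]) (by ext1 f; simp [L_L, L_zero])

theorem L_mem {t : ℂ} {k : ℕ} {f : R2} (hf : f ∈ M k) : L t f ∈ M k := by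
  have h1 : Ideal.map (L t) (M 1) ≤ M 1 := by
    conv_lhs => rw [M_one_eq]
    rw [Ideal.map_span, Ideal.span_le]
    rintro _ ⟨g, rfl | rfl, rfl⟩
    · rw [L_X0, M_one_eq]
      exact Ideal.subset_span (by simp)
    · rw [L_X1, M_one_eq]
      exact Ideal.add_mem _ (Ideal.subset_span (by simp)) (Ideal.mul_mem_left _ _ (Ideal.subset_span (by simp)))
  rw [M_eq_pow] at hf ⊢
  have h2 := Ideal.mem_map_of_mem (L t) hf
  rw [Ideal.map_pow] at h2
  exact Ideal.pow_right_mono h1 k h2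

theorem L_mem_iff {t : ℂ} {k : ℕ} {f : R2} : L t f ∈ M k ↔ f ∈ M k :=
  ⟨fun h => by simpa [L_L, L_zero] using L_mem (t := -t) h, L_mem⟩

/-! ## colengths -/

theorem dim_eq_finrank (J : Ideal R2) : dim J = Module.finrank ℂ (R2 ⧸ J) :=
  (Submodule.Quotient.restrictScalarsEquiv ℂ J).finrank_eq

theorem dim_le_finrank {I J : Ideal R2} (hIJ : I ≤ J) (hf : Module.Finite ℂ (R2 ⧸ I)) : dim J ≤ Module.finrank ℂ (R2 ⧸ I) := by
  rw [dim_eq_finrank]
  refine LinearMap.finrank_le_finrank_of_surjective (f := (Ideal.Quotient.factorₐ ℂ hIJ).toLinearMap) ?_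
  exact Ideal.Quotient.factor_surjective hIJ

/-- Nakayama -/
theorem fin_of_bdd {I : Ideal R2} {m : ℕ} (h : ∀ K, dim (I ⊔ M K) ≤ m) : Module.Finite ℂ (R2 ⧸ I) ∧ Module.finrank ℂ (R2 ⧸ I) ≤ m := by
  have hmono : ∀ K, dim (I ⊔ M K) ≤ dim (I ⊔ M (K + 1)) := fun K =>
    dim_mono (K := K + 1) le_sup_right (sup_le_sup_left (Pool.Agent.H74.SB.M_anti (Nat.le_succ K)) _)
  obtain ⟨K, hK⟩ : ∃ K, dim (I ⊔ M K) = dim (I ⊔ M (K + 1)) := by
    by_contra hcon
    push Not at hcon
    have hK : ∀ K, K ≤ dim (I ⊔ M K) := by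
      intro K
      induction K with
      | zero => exact Nat.zero_le _
      | succ K ih => exact lt_of_le_of_lt ih (lt_of_le_of_ne (hmono K) (hcon K))
    have := (hK (m + 1)).trans (h (m + 1))
    omega
  have h1 : M K ≤ I ⊔ M (K + 1) := by
    have hfin : Module.Finite ℂ (R2 ⧸ (I ⊔ M (K + 1)).restrictScalars ℂ) := finQ (K := K + 1) le_sup_right
    have hfin' : Module.Finite ℂ (R2 ⧸ (I ⊔ M K).restrictScalars ℂ) := finQ (K := K) le_sup_right
    have hle : (I ⊔ M (K + 1)).restrictScalars ℂ ≤ (I ⊔ M K).restrictScalars ℂ :=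
      sup_le_sup_left (Pool.Agent.H74.SB.M_anti (Nat.le_succ K)) _
    let φ := ((I ⊔ M (K + 1)).restrictScalars ℂ).liftQ ((I ⊔ M K).restrictScalars ℂ).mkQ (by rwa [Submodule.ker_mkQ])
    have hφ : Function.Surjective φ := by
      intro q
      obtain ⟨f, rfl⟩ := Submodule.mkQ_surjective _ q
      exact ⟨((I ⊔ M (K + 1)).restrictScalars ℂ).mkQ f, by simp [φ]⟩
    have hinj : Function.Injective φ := (LinearMap.injective_iff_surjective_of_finrank_eq_finrank hK.symm).2 hφ
    intro f hf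
    have h2 : φ (((I ⊔ M (K + 1)).restrictScalars ℂ).mkQ f) = 0 := by
      have : φ (((I ⊔ M (K + 1)).restrictScalars ℂ).mkQ f) = ((I ⊔ M K).restrictScalars ℂ).mkQ f := by simp [φ]
      rw [this, Submodule.mkQ_apply, Submodule.Quotient.mk_eq_zero]
      exact Ideal.mem_sup_right hf
    have h3 := hinj (h2.trans (map_zero φ).symm)
    rw [Submodule.mkQ_apply, Submodule.Quotient.mk_eq_zero] at h3
    exact h3
  have h2 : M K ≤ I := by
    refine Submodule.le_of_le_smul_of_le_jacobson_bot (I := M 1) (IsNoetherian.noetherian _) ?_ (h1.trans (sup_le_sup_left (M_succ_le K) _))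
    rw [IsLocalRing.jacobson_eq_maximalIdeal ⊥ bot_ne_top]
    refine IsLocalRing.le_maximalIdeal fun htop => ?_
    have h3 : (1 : R2) ∈ M 1 := htop ▸ Submodule.mem_top
    have h4 := mem_M.1 h3 0 0 (by omega)
    simp [mon] at h4
  have h3 : I ⊔ M K = I := sup_eq_left.2 h2
  have hfin : Module.Finite ℂ (R2 ⧸ I.restrictScalars ℂ) := finQ h2
  refine ⟨Module.Finite.equiv (Submodule.Quotient.restrictScalarsEquiv ℂ I), ?_⟩
  rw [← dim_eq_finrank, ← h3]
  exact h K

theorem ord_iff {l : ℕ} {a : R2} : Ord l a ↔ a ∈ M l := by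
  rw [mem_M]
  rfl

theorem order_eq {l : ℕ} {b : R2} (h1 : b ∈ M l) (h2 : b ∉ M (l + 1)) : b.order = l := by
  rw [mem_M_order] at h1 h2
  refine le_antisymm ?_ h1
  rw [not_le] at h2
  push_cast at h2
  exact (ENat.lt_add_one_iff (by simp)).1 h2

theorem fin_L {t : ℂ} {a b : R2} (h : Fin2 a b) : Module.Finite ℂ (R2 ⧸ Ideal.span {L t a, L t b}) ∧
    Module.finrank ℂ (R2 ⧸ Ideal.span {L t a, L t b}) = mu a b := by
  have e : Ideal.span {L t a, L t b} = Ideal.map ((LE t : R2 ≃ₐ[ℂ] R2) : R2 →+* R2) (Ideal.span {a, b}) := by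
    rw [Ideal.map_span, Set.image_pair]
    rfl
  let E := Ideal.quotientEquivAlg (Ideal.span {a, b}) (Ideal.span {L t a, L t b}) (LE t) e
  have hf : Module.Finite ℂ (R2 ⧸ Ideal.span {a, b}) := h
  exact ⟨Module.Finite.equiv E.toLinearEquiv, E.toLinearEquiv.finrank_eq.symm⟩

theorem core {a b u v : R2} {t : ℂ} {l : ℕ} (hf : Fin2 a b) (ha : a ∈ M l) (hb : b ∈ M l) (hl : b ∉ M (l + 1))
    (hu : X 0 ^ l * u = bl t a) (hv : X 0 ^ l * v = bl t b) : Fin2 u v ∧ mu u v + l * l ≤ mu a b := by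
  have hu' : u = ph l (L t a) := by
    apply mul_left_cancel₀ (Pool.Agent.H74.SB.X_pow_ne l)
    rw [hu, ← B_L, B_eq (L_mem ha)]
  have hv' : v = ph l (L t b) := by
    apply mul_left_cancel₀ (Pool.Agent.H74.SB.X_pow_ne l)
    rw [hv, ← B_L, B_eq (L_mem hb)]
  obtain ⟨hfin, hmu⟩ := fin_L (t := t) hf
  have hor : (L t b).order = l := order_eq (L_mem hb) (fun h => hl (L_mem_iff.1 h))
  have key : ∀ K, dim (Ideal.span {u, v} ⊔ M K) + l * l ≤ mu a b := by
    intro K
    rw [hu', hv', ← hmu]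
    exact (dim_ph (L_mem ha) hor K).trans (dim_le_finrank le_sup_left hfin)
  have hle : l * l ≤ mu a b := (Nat.le_add_left _ _).trans (key 0)
  have h1 := fin_of_bdd (I := Ideal.span {u, v}) (m := mu a b - l * l) fun K => by
    have := key K
    omega
  refine ⟨h1.1, ?_⟩
  have h2 : mu u v ≤ mu a b - l * l := h1.2
  omega

end Blow

open Blow

theorem mu_blow {a b u v : R2} {t : ℂ} {l : ℕ} (hf : Fin2 a b) (ha : Ord l a) (hb : Ord l b) (hl : ¬ (Ord (l + 1) a ∧ Ord (l + 1) b))
    (hu : X 0 ^ l * u = bl t a) (hv : X 0 ^ l * v = bl t b) : Fin2 u v ∧ mu u v + l * l ≤ mu a b := by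
  rw [ord_iff] at ha hb
  rw [ord_iff, ord_iff] at hl
  by_cases h : b ∈ M (l + 1)
  · have h1 : a ∉ M (l + 1) := fun h2 => hl ⟨h2, h⟩
    have e : ∀ p q : R2, ({p, q} : Set R2) = {q, p} := fun p q => Set.pair_comm p q
    unfold Fin2 mu at *
    rw [e u v, e a b]
    rw [e a b] at hf
    exact core hf hb ha h1 hv hu
  · exact core hf ha hb h hu hv

end Pool.Agent.SB
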