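import Pool.Agent.SB.Defs

/-!
# SB Mu: intersection multiplicities
-/

set_option autoImplicit false

open MvPowerSeries

noncomputable section

namespace Pool.Agent.SB

/-! ### coefficients -/

theorem Mu.ex_zero (i j : ℕ) : ex i j 0 = i := by simp [ex]

theorem Mu.ex_one (i j : ℕ) : ex i j 1 = j := by simp [ex]

theorem Mu.eq_ex (e : Fin 2 →₀ ℕ) : e = ex (e 0) (e 1) := by
  ext i
  fin_cases i
  · simp [ex]
  · simp [ex]

/-- the series with given coefficients -/
def Mu.mk (F : ℕ → ℕ → ℂ) : R2 := fun e => F (e 0) (e 1)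

theorem Mu.cf_mk (F : ℕ → ℕ → ℂ) (i j : ℕ) : cf (Mu.mk F) i j = F i j := by
  show F (ex i j 0) (ex i j 1) = _
  rw [Mu.ex_zero, Mu.ex_one]

theorem Mu.ext {a b : R2} (h : ∀ i j, cf a i j = cf b i j) : a = b := by
  ext e
  rw [Mu.eq_ex e]
  exact h _ _

theorem Mu.cf_monomial_mul (p q : ℕ) (z : ℂ) (a : R2) (i j : ℕ) :
    cf (monomial (ex p q) z * a) i j = if p ≤ i ∧ q ≤ j then z * cf a (i - p) (j - q) else 0 := by
  unfold cf
  rw [coeff_monomial_mul]
  have h1 : ex p q ≤ ex i j ↔ p ≤ i ∧ q ≤ j := by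
    constructor
    · intro h
      have h0 := h 0
      have h1 := h 1
      rw [Mu.ex_zero, Mu.ex_zero] at h0
      rw [Mu.ex_one, Mu.ex_one] at h1
      exact ⟨h0, h1⟩
    · rintro ⟨h0, h1⟩ k
      fin_cases k
      · simpa [ex] using h0
      · simpa [ex] using h1
  have h2 : ex i j - ex p q = ex (i - p) (j - q) := by
    ext k
    fin_cases k
    · simp [ex]
    · simp [ex]
  rw [h2]
  by_cases h : p ≤ i ∧ q ≤ j
  · rw [if_pos h, if_pos (h1.2 h)]
  · rw [if_neg h, if_neg (mt h1.1 h)]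

theorem Mu.X0_pow (n : ℕ) : (X 0 ^ n : R2) = monomial (ex n 0) 1 := by
  rw [X_pow_eq]
  congr 1
  simp [ex]

theorem Mu.X1_pow (n : ℕ) : (X 1 ^ n : R2) = monomial (ex 0 n) 1 := by
  rw [X_pow_eq]
  congr 1
  simp [ex]

theorem Mu.cf_X0_mul (a : R2) (i j : ℕ) : cf (X 0 * a) i j = if 1 ≤ i then cf a (i - 1) j else 0 := by
  have h := Mu.cf_monomial_mul 1 0 1 a i j
  rw [← Mu.X0_pow, pow_one] at h
  rw [h]
  simp

theorem Mu.cf_X1_pow_mul (n : ℕ) (a : R2) (i j : ℕ) : cf (X 1 ^ n * a) i j = if n ≤ j then cf a i (j - n) else 0 := by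
  have h := Mu.cf_monomial_mul 0 n 1 a i j
  rw [← Mu.X1_pow] at h
  rw [h]
  simp

theorem Mu.cf_C_mul_X1_pow (z : ℂ) (n : ℕ) (i j : ℕ) : cf (C z * X 1 ^ n) i j = if i = 0 ∧ j = n then z else 0 := by
  unfold cf
  rw [coeff_C_mul, Mu.X1_pow, coeff_monomial]
  have : ex i j = ex 0 n ↔ i = 0 ∧ j = n := by
    constructor
    · intro h
      have h0 := DFunLike.congr_fun h 0
      have h1 := DFunLike.congr_fun h 1
      rw [Mu.ex_zero, Mu.ex_zero] at h0
      rw [Mu.ex_one, Mu.ex_one] at h1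
      exact ⟨h0, h1⟩
    · rintro ⟨rfl, rfl⟩
      rfl
  by_cases h : i = 0 ∧ j = n
  · rw [if_pos h, if_pos (this.2 h), mul_one]
  · rw [if_neg h, if_neg (mt this.1 h), mul_zero]

theorem Mu.cf_add (a b : R2) (i j : ℕ) : cf (a + b) i j = cf a i j + cf b i j := by
  unfold cf
  rw [map_add]

theorem Mu.cf_sum {ι : Type*} (s : Finset ι) (f : ι → R2) (i j : ℕ) : cf (∑ k ∈ s, f k) i j = ∑ k ∈ s, cf (f k) i j := by
  unfold cf
  rw [map_sum]

/-- division by `x` and a power of `y` -/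
theorem Mu.decomp (f : R2) (n : ℕ) : ∃ g h : R2, f = (∑ k ∈ Finset.range n, C (cf f 0 k) * X 1 ^ k) + X 1 ^ n * g + X 0 * h ∧
    cf g 0 0 = cf f 0 n := by
  refine ⟨Mu.mk fun i j => if i = 0 then cf f 0 (j + n) else 0, Mu.mk fun i j => cf f (i + 1) j, ?_, ?_⟩
  · refine Mu.ext fun i j => ?_
    rw [Mu.cf_add, Mu.cf_add, Mu.cf_sum, Mu.cf_X0_mul, Mu.cf_X1_pow_mul, Mu.cf_mk, Mu.cf_mk]
    have hs : ∑ k ∈ Finset.range n, cf (C (cf f 0 k) * X 1 ^ k) i j = if i = 0 ∧ j < n then cf f 0 j else 0 := by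
      simp only [Mu.cf_C_mul_X1_pow]
      by_cases h : i = 0 ∧ j < n
      · rw [if_pos h, Finset.sum_eq_single_of_mem j (Finset.mem_range.2 h.2)]
        · rw [if_pos ⟨h.1, rfl⟩]
        · intro k _ hk
          rw [if_neg]
          rintro ⟨-, h2⟩
          exact hk h2.symm
      · rw [if_neg h]
        refine Finset.sum_eq_zero fun k hk => ?_
        rw [if_neg]
        rintro ⟨h1, h2⟩
        exact h ⟨h1, h2 ▸ Finset.mem_range.1 hk⟩
    rw [hs]
    rcases Nat.eq_zero_or_pos i with rfl | hi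
    · by_cases hj : j < n
      · rw [if_pos ⟨rfl, hj⟩, if_neg (by omega), if_neg (by omega)]
        ring
      · rw [if_neg (by omega), if_pos (by omega), if_pos rfl, if_neg (by omega), Nat.sub_add_cancel (by omega)]
        ring
    · rw [if_neg (by omega), if_pos (show 1 ≤ i from hi), Nat.sub_add_cancel hi, if_neg (show ¬ i = 0 by omega)]
      split_ifs <;> ring
  · rw [Mu.cf_mk, if_pos rfl, zero_add]

/-! ### the multiplicities -/

theorem mu_mul {p q c : R2} (hp : Fin2 p c) (hq : Fin2 q c) : Fin2 (p * q) c ∧ mu (p * q) c ≤ mu p c + mu q c := by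
  unfold Fin2 at hp hq
  have hle : Ideal.span {p * q, c} ≤ Ideal.span {p, c} := by
    rw [Ideal.span_le]
    rintro _ (rfl | rfl)
    · exact Ideal.mul_mem_right _ _ (Ideal.subset_span (by simp))
    · exact Ideal.subset_span (by simp)
  -- the projection
  let g : (R2 ⧸ Ideal.span {p * q, c}) →ₐ[ℂ] (R2 ⧸ Ideal.span {p, c}) := Ideal.Quotient.factorₐ ℂ hle
  have hg : Function.Surjective g := Ideal.Quotient.factor_surjective hle
  -- the multiplication by `p`
  let m : R2 →ₗ[ℂ] (R2 ⧸ Ideal.span {p * q, c}) := (Ideal.Quotient.mkₐ ℂ (Ideal.span {p * q, c})).toLinearMap ∘ₗ LinearMap.mulLeft ℂ p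
  have hker : (Ideal.span {q, c}).restrictScalars ℂ ≤ LinearMap.ker m := by
    intro z hz
    rw [LinearMap.mem_ker]
    show Ideal.Quotient.mk (Ideal.span {p * q, c}) (p * z) = 0
    rw [Ideal.Quotient.eq_zero_iff_mem]
    obtain ⟨a, b, rfl⟩ := Ideal.mem_span_pair.1 hz
    rw [Ideal.mem_span_pair]
    exact ⟨a, p * b, by ring⟩
  let f : (R2 ⧸ (Ideal.span {q, c}).restrictScalars ℂ) →ₗ[ℂ] (R2 ⧸ Ideal.span {p * q, c}) := Submodule.liftQ _ m hker
  have hf : LinearMap.ker g.toLinearMap ≤ LinearMap.range f := by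
    intro z hz
    obtain ⟨w, rfl⟩ := Ideal.Quotient.mk_surjective z
    have h1 : w ∈ Ideal.span {p, c} := by
      rw [← Ideal.Quotient.eq_zero_iff_mem]
      exact hz
    obtain ⟨a, b, rfl⟩ := Ideal.mem_span_pair.1 h1
    refine ⟨Submodule.Quotient.mk a, ?_⟩
    show Ideal.Quotient.mk (Ideal.span {p * q, c}) (p * a) = _
    rw [← sub_eq_zero, ← map_sub, Ideal.Quotient.eq_zero_iff_mem, Ideal.mem_span_pair]
    exact ⟨0, -b, by ring⟩
  have hq' : Module.Finite ℂ (R2 ⧸ (Ideal.span {q, c}).restrictScalars ℂ) := hq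
  have hr : Module.Finite ℂ (LinearMap.range f) := inferInstance
  have hk : Module.Finite ℂ (LinearMap.ker g.toLinearMap) := Submodule.finiteDimensional_of_le hf
  have hquo : Module.Finite ℂ ((R2 ⧸ Ideal.span {p * q, c}) ⧸ LinearMap.ker g.toLinearMap) :=
    Module.Finite.equiv (LinearMap.quotKerEquivOfSurjective g.toLinearMap hg).symm
  have hfin : Module.Finite ℂ (R2 ⧸ Ideal.span {p * q, c}) := Module.Finite.of_submodule_quotient (LinearMap.ker g.toLinearMap)
  refine ⟨hfin, ?_⟩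
  have h1 := LinearMap.finrank_range_add_finrank_ker g.toLinearMap
  have h2 : Module.finrank ℂ (LinearMap.range g.toLinearMap) = mu p c := by
    rw [LinearMap.range_eq_top.2 hg, finrank_top]
    rfl
  have h3 : Module.finrank ℂ (LinearMap.ker g.toLinearMap) ≤ mu q c :=
    (Submodule.finrank_mono hf).trans (LinearMap.finrank_range_le f)
  unfold mu at *
  omega

theorem Mu.of_le {I J : Ideal R2} (hle : I ≤ J) (h : Module.Finite ℂ (R2 ⧸ I)) :
    Module.Finite ℂ (R2 ⧸ J) ∧ Module.finrank ℂ (R2 ⧸ J) ≤ Module.finrank ℂ (R2 ⧸ I) := by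
  let g : (R2 ⧸ I) →ₐ[ℂ] (R2 ⧸ J) := Ideal.Quotient.factorₐ ℂ hle
  have hg : Function.Surjective g := Ideal.Quotient.factor_surjective hle
  exact ⟨Module.Finite.of_surjective g.toLinearMap hg, LinearMap.finrank_le_finrank_of_surjective (f := g.toLinearMap) hg⟩

theorem mu_X0 {c : R2} {n : ℕ} (h : cf c 0 n ≠ 0) : Fin2 (X 0) c ∧ mu (X 0) c ≤ n := by
  classical
  have hex : ∃ n, cf c 0 n ≠ 0 := ⟨n, h⟩
  set n₀ := Nat.find hex with hn₀
  have hc : cf c 0 n₀ ≠ 0 := Nat.find_spec hex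
  have hmin : ∀ k, k < n₀ → cf c 0 k = 0 := fun k hk => by
    by_contra hne
    exact Nat.find_min hex hk hne
  have hle : n₀ ≤ n := Nat.find_min' hex h
  obtain ⟨g, h', hd, hg⟩ := Mu.decomp c n₀
  have hs : (∑ k ∈ Finset.range n₀, C (cf c 0 k) * X 1 ^ k : R2) = 0 := by
    refine Finset.sum_eq_zero fun k hk => ?_
    rw [hmin k (Finset.mem_range.1 hk), map_zero, zero_mul]
  rw [hs, zero_add] at hd
  have hu : IsUnit g := by
    rw [isUnit_iff_constantCoeff]
    have : constantCoeff g = cf g 0 0 := by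
      unfold cf
      rw [show ex 0 0 = 0 by simp [ex], coeff_zero_eq_constantCoeff_apply]
    rw [this, hg]
    exact isUnit_iff_ne_zero.2 hc
  obtain ⟨w, hw⟩ := hu.exists_left_inv
  set I : Ideal R2 := Ideal.span {X 0, c} with hI
  have hy : (X 1 ^ n₀ : R2) ∈ I := by
    rw [hI, Ideal.mem_span_pair]
    refine ⟨-(w * h'), w, ?_⟩
    calc -(w * h') * X 0 + w * c = -(w * h') * X 0 + w * (X 1 ^ n₀ * g + X 0 * h') := by rw [← hd]
      _ = (w * g) * X 1 ^ n₀ := by ring
      _ = X 1 ^ n₀ := by rw [hw, one_mul]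
  -- the quotient is spanned by the powers of `y`
  let v : Fin n₀ → R2 ⧸ I := fun k => Ideal.Quotient.mk I (X 1 ^ (k : ℕ))
  have hspan : Submodule.span ℂ (Set.range v) = ⊤ := by
    rw [eq_top_iff]
    rintro z -
    obtain ⟨f, rfl⟩ := Ideal.Quotient.mk_surjective z
    obtain ⟨g₁, h₁, hf, -⟩ := Mu.decomp f n₀
    have h1 : Ideal.Quotient.mk I f = ∑ k ∈ Finset.range n₀, (cf f 0 k) • Ideal.Quotient.mk I (X 1 ^ k) := by
      conv_lhs => rw [hf]
      rw [map_add, map_add, map_mul, map_mul, Ideal.Quotient.eq_zero_iff_mem.2 hy,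
        Ideal.Quotient.eq_zero_iff_mem.2 (show (X 0 : R2) ∈ I from Ideal.subset_span (by simp)), zero_mul, zero_mul, add_zero, add_zero,
        map_sum]
      refine Finset.sum_congr rfl fun k _ => ?_
      have h3 : (cf f 0 k) • Ideal.Quotient.mk I (X 1 ^ k) = Ideal.Quotient.mk I ((cf f 0 k) • (X 1 ^ k : R2)) := rfl
      rw [h3, smul_eq_C_mul]
    rw [h1]
    refine Submodule.sum_mem _ fun k hk => Submodule.smul_mem _ _ (Submodule.subset_span ?_)
    exact ⟨⟨k, Finset.mem_range.1 hk⟩, rfl⟩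
  have hfin : Module.Finite ℂ (R2 ⧸ I) := ⟨⟨Finset.univ.image v, by rw [Finset.coe_image, Finset.coe_univ, Set.image_univ, hspan]⟩⟩
  refine ⟨hfin, ?_⟩
  have h2 : Module.finrank ℂ (R2 ⧸ I) ≤ n₀ := by
    have := finrank_range_le_card (R := ℂ) v
    unfold Set.finrank at this
    rw [hspan, finrank_top, Fintype.card_fin] at this
    exact this
  exact h2.trans hle

theorem Mu.span_sub (a b r : R2) : Ideal.span {a, b - r * a} = Ideal.span {a, b} := by
  apply le_antisymm
  · rw [Ideal.span_le]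
    rintro _ (rfl | rfl)
    · exact Ideal.subset_span (by simp)
    · exact Ideal.mem_span_pair.2 ⟨-r, 1, by ring⟩
  · rw [Ideal.span_le]
    rintro _ (rfl | rfl)
    · exact Ideal.subset_span (by simp)
    · exact Ideal.mem_span_pair.2 ⟨r, 1, by ring⟩

theorem fin2_sub (a b r : R2) : Fin2 a (b - r * a) ↔ Fin2 a b := by
  unfold Fin2
  rw [Mu.span_sub]

theorem mu_sub (a b r : R2) : mu a (b - r * a) = mu a b := by
  unfold mu
  rw [Mu.span_sub]

theorem mu_of_mul {a c p : R2} (h : Fin2 a (p * c)) : Fin2 a c ∧ mu a c ≤ mu a (p * c) := by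
  refine Mu.of_le ?_ h
  rw [Ideal.span_le]
  rintro _ (rfl | rfl)
  · exact Ideal.subset_span (by simp)
  · exact Ideal.mul_mem_left _ _ (Ideal.subset_span (by simp))

theorem Mu.map_sw (a b : R2) : Ideal.span {sw b, sw a} = (Ideal.span {a, b}).map (sw : R2 →+* R2) := by
  rw [Ideal.map_span, Set.image_pair, Set.pair_comm]
  rfl

theorem fin2_swap (a b : R2) : Fin2 (sw b) (sw a) ↔ Fin2 a b := by
  let e : (R2 ⧸ Ideal.span {a, b}) ≃ₐ[ℂ] (R2 ⧸ Ideal.span {sw b, sw a}) := Ideal.quotientEquivAlg _ _ sw (Mu.map_sw a b)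
  exact (Module.Finite.equiv_iff e.toLinearEquiv).symm

theorem mu_swap (a b : R2) : mu (sw b) (sw a) = mu a b := by
  let e : (R2 ⧸ Ideal.span {a, b}) ≃ₐ[ℂ] (R2 ⧸ Ideal.span {sw b, sw a}) := Ideal.quotientEquivAlg _ _ sw (Mu.map_sw a b)
  exact (LinearEquiv.finrank_eq e.toLinearEquiv).symm

/-- `R2` is not a finite dimensional vector space -/
theorem Mu.not_finite : ¬ Module.Finite ℂ R2 := by
  intro hfin
  set n := Module.finrank ℂ R2 with hn
  let L : R2 →ₗ[ℂ] (Fin (n + 1) → ℂ) := LinearMap.pi fun k => coeff (ex 0 k)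
  have hL : Function.Surjective L := by
    intro v
    refine ⟨Mu.mk fun _ j => if h : j < n + 1 then v ⟨j, h⟩ else 0, ?_⟩
    funext k
    have h1 : L (Mu.mk fun _ j => if h : j < n + 1 then v ⟨j, h⟩ else 0) k =
        cf (Mu.mk fun _ j => if h : j < n + 1 then v ⟨j, h⟩ else 0) 0 (k : ℕ) := rfl
    rw [h1, Mu.cf_mk, dif_pos k.2]
  have h := LinearMap.finrank_le_finrank_of_surjective hL
  rw [Module.finrank_fin_fun] at h
  omega

/-- a finite multiplicity and two series of positive order: not both vanish to infinite order -/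
theorem exists_order {a b : R2} (h : Fin2 a b) : ∃ l : ℕ, Ord l a ∧ Ord l b ∧ ¬ (Ord (l + 1) a ∧ Ord (l + 1) b) := by
  classical
  have hex : ∃ l : ℕ, ¬ (Ord (l + 1) a ∧ Ord (l + 1) b) := by
    by_contra hall
    push Not at hall
    have ha : a = 0 := Mu.ext fun i j => by
      rw [(hall (i + j)).1 i j (by omega)]
      rfl
    have hb : b = 0 := Mu.ext fun i j => by
      rw [(hall (i + j)).2 i j (by omega)]
      rfl
    unfold Fin2 at h
    rw [ha, hb] at h
    apply Mu.not_finite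
    have h0 : (Ideal.span {0, 0} : Ideal R2) = ⊥ := by simp
    rw [h0] at h
    exact Module.Finite.equiv (AlgEquiv.quotientBot ℂ R2).toLinearEquiv
  refine ⟨Nat.find hex, ?_, ?_, Nat.find_spec hex⟩
  · rcases Nat.eq_zero_or_pos (Nat.find hex) with h0 | h0
    · rw [h0]
      intro i j hij
      omega
    · have h1 := not_not.1 (Nat.find_min hex (show Nat.find hex - 1 < Nat.find hex by omega))
      have h2 := h1.1
      rwa [show Nat.find hex - 1 + 1 = Nat.find hex by omega] at h2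
  · rcases Nat.eq_zero_or_pos (Nat.find hex) with h0 | h0
    · rw [h0]
      intro i j hij
      omega
    · have h1 := not_not.1 (Nat.find_min hex (show Nat.find hex - 1 < Nat.find hex by omega))
      have h2 := h1.2
      rwa [show Nat.find hex - 1 + 1 = Nat.find hex by omega] at h2

end Pool.Agent.SB
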