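import Pool.Agent.SB.Api
import Pool.Agent.SB.Mu
import Pool.Agent.SB.Blow

/-!
# SB Chd: the child and its intersection multiplicity
-/

set_option autoImplicit false

open MvPowerSeries

noncomputable section

namespace Pool.Agent.SB

theorem Chd.X0_ne : (X 0 : R2) ≠ 0 := by
  intro h
  have h1 := cf_X0_mul (1 : R2) 1 0
  rw [h, zero_mul] at h1
  have h2 : cf (0 : R2) 1 0 = 0 := map_zero _
  have h3 : cf (1 : R2) 0 0 = 1 := by
    unfold cf ex
    simp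
  rw [h2] at h1
  simp [h3] at h1

theorem Chd.cancel {n : ℕ} {p q : R2} (h : X 0 ^ n * p = X 0 ^ n * q) : p = q :=
  mul_left_cancel₀ (pow_ne_zero n Chd.X0_ne) h

theorem Chd.eq_c {a b u v : R2} {t : ℂ} {l : ℕ} (hu : X 0 ^ l * u = bl t a) (hv : X 0 ^ l * v = bl t b) :
    bl t b - (X 1 + C t) * bl t a = X 0 ^ l * (v - (X 1 + C t) * u) := by
  rw [← hu, ← hv]
  ring

theorem child_cases {a b a₁ b₁ u v : R2} {t : ℂ} {l : ℕ} (_hl1 : 1 ≤ l) (ha : Ord l a) (hb : Ord l b) (hl : ¬ (Ord (l + 1) a ∧ Ord (l + 1) b))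
    (hu : X 0 ^ l * u = bl t a) (hv : X 0 ^ l * v = bl t b) (h : Child t a b a₁ b₁) :
    (a₁ = X 0 * u ∧ b₁ = v - (X 1 + C t) * u ∧ ¬ X 0 ∣ b₁) ∨ (a₁ = u ∧ X 0 * b₁ = v - (X 1 + C t) * u) := by
  obtain ⟨e, h1, h2, h3⟩ := h
  rw [Chd.eq_c hu hv] at h2
  rw [← hu] at h1
  by_cases hc : X 0 ∣ v - (X 1 + C t) * u
  · right
    obtain ⟨c', hc'⟩ := hc
    have hnu : ¬ X 0 ∣ u := by
      intro hdu
      have hdv : X 0 ∣ v := by
        have : v = X 0 * c' + (X 1 + C t) * u := by rw [← hc']; ring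
        rw [this]
        exact dvd_add (dvd_mul_right _ _) (hdu.mul_left _)
      exact hl ⟨ord_succ_of_dvd ha hu hdu, ord_succ_of_dvd hb hv hdv⟩
    have hel : e ≤ l := by
      by_contra hlt
      apply hnu
      obtain ⟨k, hk⟩ := Nat.exists_eq_add_of_lt (not_le.1 hlt)
      refine ⟨X 0 ^ k * a₁, ?_⟩
      apply Chd.cancel (n := l)
      rw [← h1, hk]
      ring
    obtain ⟨k, hk⟩ := Nat.exists_eq_add_of_le hel
    subst hk
    have e1 : a₁ = X 0 ^ k * u := by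
      apply Chd.cancel (n := e)
      rw [h1]
      ring
    have e2 : b₁ = X 0 ^ k * c' := by
      apply Chd.cancel (n := e + 1)
      rw [h2, hc']
      ring
    rcases Nat.eq_zero_or_pos k with hk0 | hk0
    · subst hk0
      rw [pow_zero, one_mul] at e1 e2
      exact ⟨e1, by rw [e2, hc']⟩
    · exfalso
      apply h3
      rw [e1, e2]
      exact ⟨(dvd_pow_self _ hk0.ne').mul_right _, (dvd_pow_self _ hk0.ne').mul_right _⟩
  · left
    have hel : e + 1 ≤ l := by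
      by_contra hlt
      apply hc
      obtain ⟨k, hk⟩ := Nat.exists_eq_add_of_lt (not_le.1 hlt)
      refine ⟨X 0 ^ k * b₁, ?_⟩
      apply Chd.cancel (n := l)
      rw [← h2, hk]
      ring
    obtain ⟨k, hk⟩ := Nat.exists_eq_add_of_le hel
    subst hk
    have e1 : a₁ = X 0 ^ (k + 1) * u := by
      apply Chd.cancel (n := e)
      rw [h1]
      ring
    have e2 : b₁ = X 0 ^ k * (v - (X 1 + C t) * u) := by
      apply Chd.cancel (n := e + 1)
      rw [h2]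
      ring
    rcases Nat.eq_zero_or_pos k with hk0 | hk0
    · subst hk0
      rw [pow_zero, one_mul] at e2
      rw [zero_add, pow_one] at e1
      exact ⟨e1, e2, by rw [e2]; exact hc⟩
    · exfalso
      apply h3
      rw [e1, e2]
      exact ⟨(dvd_pow_self _ (Nat.succ_ne_zero k)).mul_right _, (dvd_pow_self _ hk0.ne').mul_right _⟩

theorem child_mu_le {a b a₁ b₁ u v : R2} {t : ℂ} {l n : ℕ} (hf : Fin2 a b) (hl1 : 1 ≤ l) (ha : Ord l a) (hb : Ord l b)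
    (hl : ¬ (Ord (l + 1) a ∧ Ord (l + 1) b)) (hu : X 0 ^ l * u = bl t a) (hv : X 0 ^ l * v = bl t b) (h : Child t a b a₁ b₁)
    (hn : cf (v - (X 1 + C t) * u) 0 n ≠ 0) : Fin2 a₁ b₁ ∧ mu a₁ b₁ + l * l ≤ mu a b + n := by
  obtain ⟨hfuv, hmuv⟩ := mu_blow hf ha hb hl hu hv
  have hfuc : Fin2 u (v - (X 1 + C t) * u) := (fin2_sub _ _ _).2 hfuv
  have hmuc : mu u (v - (X 1 + C t) * u) = mu u v := mu_sub _ _ _
  rcases child_cases hl1 ha hb hl hu hv h with ⟨e1, e2, -⟩ | ⟨e1, e2⟩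
  · obtain ⟨hx1, hx2⟩ := mu_X0 hn
    obtain ⟨hm1, hm2⟩ := mu_mul hx1 hfuc
    rw [e1, e2]
    exact ⟨hm1, by omega⟩
  · rw [← e2] at hfuc hmuc
    obtain ⟨hm1, hm2⟩ := mu_of_mul hfuc
    rw [e1]
    exact ⟨hm1, by omega⟩

theorem child_mu {a b a₁ b₁ : R2} {t : ℂ} {l : ℕ} (hf : Fin2 a b) (h2 : 2 ≤ l) (ha : Ord l a) (hb : Ord l b)
    (hl : ¬ (Ord (l + 1) a ∧ Ord (l + 1) b)) (h : Child t a b a₁ b₁) : Fin2 a₁ b₁ ∧ mu a₁ b₁ < mu a b := by
  obtain ⟨u, hu⟩ := exists_bl t ha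
  obtain ⟨v, hv⟩ := exists_bl t hb
  have hl1 : 1 ≤ l := by omega
  have hll : l + 2 ≤ l * l := by nlinarith
  rcases child_cases hl1 ha hb hl hu hv h with ⟨e1, e2, e3⟩ | ⟨e1, e2⟩
  · rw [X0_dvd_iff] at e3
    push Not at e3
    obtain ⟨n, hn⟩ := e3
    rw [e2] at hn
    have hnl : n ≤ l + 1 := by
      by_contra hcon
      push Not at hcon
      apply hn
      rw [cf_sub, add_mul, cf_add, cf_X1_mul, cf_C_mul, cf_zero_of_bl hv (by omega), cf_zero_of_bl hu (j := n) (by omega), if_pos (by omega),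
        cf_zero_of_bl hu (j := n - 1) (by omega)]
      ring
    obtain ⟨h4, h5⟩ := child_mu_le hf hl1 ha hb hl hu hv h hn
    exact ⟨h4, by omega⟩
  · obtain ⟨hfuv, hmuv⟩ := mu_blow hf ha hb hl hu hv
    have hfuc : Fin2 u (v - (X 1 + C t) * u) := (fin2_sub _ _ _).2 hfuv
    have hmuc : mu u (v - (X 1 + C t) * u) = mu u v := mu_sub _ _ _
    rw [← e2] at hfuc hmuc
    obtain ⟨hm1, hm2⟩ := mu_of_mul hfuc
    rw [e1]
    exact ⟨hm1, by omega⟩

end Pool.Agent.SB
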