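import Pool.Agent.SB.Api
import Pool.Agent.SB.Chd

/-!
# SB Eig: germs with a nonzero eigenvalue are reduced by finitely many blow-ups
-/

set_option autoImplicit false

open MvPowerSeries

noncomputable section

namespace Pool.Agent.SB

/-! ### the coefficients of `c = v - (y + t) u` on the exceptional line -/

theorem cf_c_zero (u v : R2) (t : ℂ) : cf (v - (X 1 + C t) * u) 0 0 = cf v 0 0 - t * cf u 0 0 := by
  rw [cf_sub, add_mul, cf_add, cf_X1_mul, cf_C_mul]
  simp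

theorem cf_c_succ (u v : R2) (t : ℂ) (j : ℕ) :
    cf (v - (X 1 + C t) * u) 0 (j + 1) = cf v 0 (j + 1) - (cf u 0 j + t * cf u 0 (j + 1)) := by
  rw [cf_sub, add_mul, cf_add, cf_X1_mul, cf_C_mul]
  simp

theorem cf_X0_mul_zero (b : R2) (j : ℕ) : cf (X 0 * b) 0 j = 0 := by
  rw [cf_X0_mul]
  simp

/-- the tangent direction `(1 : t)` is not a root of `P`: the child is regular -/
theorem red_child_reg {a b a₁ b₁ u v : R2} {t : ℂ} {l : ℕ} (hl1 : 1 ≤ l) (ha : Ord l a) (hb : Ord l b) (hl : ¬ (Ord (l + 1) a ∧ Ord (l + 1) b))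
    (hu : X 0 ^ l * u = bl t a) (hv : X 0 ^ l * v = bl t b) (h : Child t a b a₁ b₁) (h0 : cf (v - (X 1 + C t) * u) 0 0 ≠ 0) : Red a₁ b₁ := by
  rcases child_cases hl1 ha hb hl hu hv h with ⟨_, h2, _⟩ | ⟨_, h2⟩
  · exact Red.reg _ _ (Or.inr (by rw [h2]; exact h0))
  · exact absurd (by rw [← h2]; exact cf_X0_mul_zero b₁ 0) h0

/-- the linear part of the child over an eigendirection -/
theorem red_child_eig {a₁ b₁ : R2} {l k : ℂ} {p q : ℕ}
    (ih : ∀ (a' b' : R2) (l' k' : ℂ) (p' q' : ℕ), p' + q' < p + q → cf a' 0 0 = 0 → cf b' 0 0 = 0 → l' + k' = tr a' b' → l' * k' = dt a' b' →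
      l' ≠ 0 → 0 < p' → 0 < q' → (p' : ℂ) * l' = q' * k' → Red a' b')
    (ha₁ : cf a₁ 0 0 = 0) (hb₁ : cf b₁ 0 0 = 0) (htr : tr a₁ b₁ = k) (hdt : dt a₁ b₁ = l * (k - l))
    (hl : l ≠ 0) (hp : 0 < p) (hq : 0 < q) (h : (p : ℂ) * l = q * k) : Red a₁ b₁ := by
  have hq' : (q : ℂ) ≠ 0 := Nat.cast_ne_zero.2 hq.ne'
  rcases lt_trichotomy p q with hpq | hpq | hpq
  · -- negative ratio
    refine Red.elem _ _ ⟨ha₁, hb₁, l, k - l, by rw [htr]; ring, hdt.symm, hl, fun p' q' hp' hq' he => ?_⟩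
    obtain ⟨r, rfl⟩ := Nat.exists_eq_add_of_lt hpq
    have h1 : ((p + r + 1 : ℕ) : ℂ) * (k - l) = -((r + 1 : ℕ) : ℂ) * l := by
      push_cast at h ⊢
      linear_combination -h
    have h2 : (((p + r + 1) * p' + q' * (r + 1) : ℕ) : ℂ) * l = 0 := by
      push_cast at h1 ⊢
      linear_combination ((p : ℂ) + r + 1) * he + (q' : ℂ) * h1
    rcases mul_eq_zero.1 h2 with h3 | h3
    · have h4 : (p + r + 1) * p' + q' * (r + 1) = 0 := by exact_mod_cast h3
      have h5 : 0 < (p + r + 1) * p' := Nat.mul_pos (by omega) hp'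
      omega
    · exact hl h3
  · -- equal eigenvalues
    subst hpq
    have hk : k = l := (mul_left_cancel₀ hq' h).symm
    subst hk
    refine Red.elem _ _ ⟨ha₁, hb₁, k, 0, by rw [htr]; ring, by rw [hdt]; ring, hl, fun p' q' hp' _ he => ?_⟩
    rw [mul_zero] at he
    rcases mul_eq_zero.1 he with h3 | h3
    · exact hp'.ne' (by exact_mod_cast h3)
    · exact hl h3
  · obtain ⟨r, rfl⟩ := Nat.exists_eq_add_of_lt hpq
    refine ih a₁ b₁ l (k - l) (r + 1) q (by omega) ha₁ hb₁ (by rw [htr]; ring) hdt.symm hl (by omega) hq ?_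
    push_cast at h ⊢
    linear_combination h

/-- the children of a germ with two eigenvalues of positive rational ratio -/
theorem red_child_of_eig {a b a₁ b₁ : R2} {t l k : ℂ} {p q : ℕ}
    (ih : ∀ (a' b' : R2) (l' k' : ℂ) (p' q' : ℕ), p' + q' < p + q → cf a' 0 0 = 0 → cf b' 0 0 = 0 → l' + k' = tr a' b' → l' * k' = dt a' b' →
      l' ≠ 0 → 0 < p' → 0 < q' → (p' : ℂ) * l' = q' * k' → Red a' b')
    (ha : cf a 0 0 = 0) (hb : cf b 0 0 = 0) (htr : l + k = tr a b) (hdt : l * k = dt a b)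
    (hl : l ≠ 0) (hp : 0 < p) (hq : 0 < q) (h : (p : ℂ) * l = q * k) (hc : Child t a b a₁ b₁) : Red a₁ b₁ := by
  have hk : k ≠ 0 := by
    rintro rfl
    rw [mul_zero] at h
    rcases mul_eq_zero.1 h with h3 | h3
    · exact hp.ne' (by exact_mod_cast h3)
    · exact hl h3
  have ha1 : Ord 1 a := by
    intro i j hij
    obtain ⟨rfl, rfl⟩ : i = 0 ∧ j = 0 := by omega
    exact ha
  have hb1 : Ord 1 b := by
    intro i j hij
    obtain ⟨rfl, rfl⟩ : i = 0 ∧ j = 0 := by omega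
    exact hb
  have hn : ¬ (Ord (1 + 1) a ∧ Ord (1 + 1) b) := by
    rintro ⟨h1, h2⟩
    have e1 : dt a b = 0 := by
      unfold dt
      rw [h1 1 0 (by norm_num), h1 0 1 (by norm_num)]
      ring
    rw [← hdt] at e1
    rcases mul_eq_zero.1 e1 with h3 | h3
    · exact hl h3
    · exact hk h3
  obtain ⟨u, hu⟩ := exists_bl t ha1
  obtain ⟨v, hv⟩ := exists_bl t hb1
  have hu0 : cf u 0 0 = cf a 1 0 + cf a 0 1 * t := by
    rw [cf_of_bl hu]
    simp [Finset.sum_range_succ]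
  have hu1 : cf u 0 1 = cf a 0 1 := by
    rw [cf_of_bl hu]
    simp [Finset.sum_range_succ]
  have hv0 : cf v 0 0 = cf b 1 0 + cf b 0 1 * t := by
    rw [cf_of_bl hv]
    simp [Finset.sum_range_succ]
  have hv1 : cf v 0 1 = cf b 0 1 := by
    rw [cf_of_bl hv]
    simp [Finset.sum_range_succ]
  by_cases h0 : cf (v - (X 1 + C t) * u) 0 0 = 0
  · have h0' : cf b 1 0 + cf b 0 1 * t - t * (cf a 1 0 + cf a 0 1 * t) = 0 := by
      rw [cf_c_zero, hv0, hu0] at h0
      exact h0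
    have h1 : cf (v - (X 1 + C t) * u) 0 1 = tr a b - 2 * cf u 0 0 := by
      rw [cf_c_succ, hv1, hu0, hu1]
      unfold tr
      ring
    have hroot : (cf u 0 0 - l) * (cf u 0 0 - k) = 0 := by
      have e1 : (cf u 0 0 - l) * (cf u 0 0 - k) = cf u 0 0 ^ 2 - (l + k) * cf u 0 0 + l * k := by ring
      rw [e1, htr, hdt, hu0]
      unfold tr dt
      linear_combination -(cf a 0 1) * h0'
    rcases child_cases (le_refl 1) ha1 hb1 hn hu hv hc with ⟨h2, h3, _⟩ | ⟨h2, h3⟩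
    · have ea0 : cf a₁ 0 0 = 0 := by rw [h2]; exact cf_X0_mul_zero u 0
      have eb0 : cf b₁ 0 0 = 0 := by rw [h3]; exact h0
      have ea10 : cf a₁ 1 0 = cf u 0 0 := by
        rw [h2, cf_X0_mul]
        simp
      have ea01 : cf a₁ 0 1 = 0 := by rw [h2]; exact cf_X0_mul_zero u 1
      have eb01 : cf b₁ 0 1 = tr a b - 2 * cf u 0 0 := by rw [h3]; exact h1
      have etr : tr a₁ b₁ = tr a b - cf u 0 0 := by
        unfold tr at eb01 ⊢
        rw [ea10, eb01]
        ring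
      have edt : dt a₁ b₁ = cf u 0 0 * (tr a b - 2 * cf u 0 0) := by
        unfold dt
        rw [ea10, ea01, eb01]
        ring
      rcases mul_eq_zero.1 hroot with h4 | h4
      · have h5 : cf u 0 0 = l := sub_eq_zero.1 h4
        refine red_child_eig (l := l) (k := k) ih ea0 eb0 ?_ ?_ hl hp hq h
        · rw [etr, h5, ← htr]; ring
        · rw [edt, h5, ← htr]; ring
      · have h5 : cf u 0 0 = k := sub_eq_zero.1 h4
        refine red_child_eig (l := k) (k := l) (p := q) (q := p) ?_ ea0 eb0 ?_ ?_ hk hq hp h.symm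
        · intro a' b' l' k' p' q' hpq
          exact ih a' b' l' k' p' q' (by omega)
        · rw [etr, h5, ← htr]; ring
        · rw [edt, h5, ← htr]; ring
    · refine Red.reg _ _ (Or.inl ?_)
      rw [h2]
      intro h4
      have e1 : tr a b = 0 := by
        have e2 := h1
        rw [← h3, cf_X0_mul_zero, h4] at e2
        linear_combination -e2
      rw [h4, zero_sub, zero_sub] at hroot
      rcases mul_eq_zero.1 hroot with h5 | h5
      · exact hl (neg_eq_zero.1 h5)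
      · exact hk (neg_eq_zero.1 h5)
  · exact red_child_reg (le_refl 1) ha1 hb1 hn hu hv hc h0

/-- two eigenvalues of positive rational ratio -/
theorem red_of_ratio (n : ℕ) : ∀ (a b : R2) (l k : ℂ) (p q : ℕ), p + q ≤ n → cf a 0 0 = 0 → cf b 0 0 = 0 → l + k = tr a b → l * k = dt a b →
      l ≠ 0 → 0 < p → 0 < q → (p : ℂ) * l = q * k → Red a b := by
  induction n with
  | zero =>
    intro a b l k p q hpq _ _ _ _ _ hp
    omega
  | succ n ih =>
    intro a b l k p q hpq ha hb htr hdt hl hp hq h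
    have ih' : ∀ (a' b' : R2) (l' k' : ℂ) (p' q' : ℕ), p' + q' < p + q → cf a' 0 0 = 0 → cf b' 0 0 = 0 → l' + k' = tr a' b' → l' * k' = dt a' b' →
        l' ≠ 0 → 0 < p' → 0 < q' → (p' : ℂ) * l' = q' * k' → Red a' b' :=
      fun a' b' l' k' p' q' hpq' => ih a' b' l' k' p' q' (by omega)
    refine Red.blow _ _ (fun t a₁ b₁ hc => red_child_of_eig ih' ha hb htr hdt hl hp hq h hc) fun a₁ b₁ hc => ?_
    refine red_child_of_eig (l := l) (k := k) ih' ?_ ?_ ?_ ?_ hl hp hq h hc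
    · rw [cf_sw]; exact hb
    · rw [cf_sw]; exact ha
    · rw [htr]; unfold tr; rw [cf_sw, cf_sw]; ring
    · rw [hdt]; unfold dt; rw [cf_sw, cf_sw, cf_sw, cf_sw]; ring

theorem red_of_roots {a b : R2} (ha : cf a 0 0 = 0) (hb : cf b 0 0 = 0) {l k : ℂ} (htr : l + k = tr a b) (hdt : l * k = dt a b) (hl : l ≠ 0) :
    Red a b := by
  by_cases h : ∀ p q : ℕ, 0 < p → 0 < q → (p : ℂ) * l ≠ q * k
  · exact Red.elem _ _ ⟨ha, hb, l, k, htr, hdt, hl, h⟩
  · push Not at h
    obtain ⟨p, q, hp, hq, h⟩ := h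
    exact red_of_ratio (p + q) a b l k p q le_rfl ha hb htr hdt hl hp hq h

theorem red_of_eig (a b : R2) (ha : cf a 0 0 = 0) (hb : cf b 0 0 = 0) (h : tr a b ≠ 0 ∨ dt a b ≠ 0) : Red a b := by
  obtain ⟨s, hs⟩ := IsAlgClosed.exists_pow_nat_eq (tr a b ^ 2 - 4 * dt a b) (n := 2) (by norm_num)
  have e1 : (tr a b + s) / 2 + (tr a b - s) / 2 = tr a b := by ring
  have e2 : (tr a b + s) / 2 * ((tr a b - s) / 2) = dt a b := by
    linear_combination -(1 / 4 : ℂ) * hs
  by_cases hl : (tr a b + s) / 2 = 0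
  · by_cases hk : (tr a b - s) / 2 = 0
    · rw [hl, hk, add_zero] at e1
      rw [hl, zero_mul] at e2
      rcases h with h | h
      · exact absurd e1.symm h
      · exact absurd e2.symm h
    · exact red_of_roots ha hb (by rw [add_comm]; exact e1) (by rw [mul_comm]; exact e2) hk
  · exact red_of_roots ha hb e1 e2 hl

/-- a simple root of `P` -/
theorem red_child_simple {a b a₁ b₁ u v : R2} {t : ℂ} {l : ℕ} (hl1 : 1 ≤ l) (ha : Ord l a) (hb : Ord l b)
    (hl : ¬ (Ord (l + 1) a ∧ Ord (l + 1) b)) (hu : X 0 ^ l * u = bl t a) (hv : X 0 ^ l * v = bl t b) (h : Child t a b a₁ b₁)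
    (h1 : cf (v - (X 1 + C t) * u) 0 1 ≠ 0) : Red a₁ b₁ := by
  by_cases h0 : cf (v - (X 1 + C t) * u) 0 0 = 0
  · rcases child_cases hl1 ha hb hl hu hv h with ⟨h2, h3, _⟩ | ⟨_, h3⟩
    · refine red_of_eig _ _ (by rw [h2]; exact cf_X0_mul_zero u 0) (by rw [h3]; exact h0) ?_
      have ea10 : cf a₁ 1 0 = cf u 0 0 := by
        rw [h2, cf_X0_mul]
        simp
      have ea01 : cf a₁ 0 1 = 0 := by rw [h2]; exact cf_X0_mul_zero u 1
      have eb01 : cf b₁ 0 1 = cf (v - (X 1 + C t) * u) 0 1 := by rw [h3]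
      by_cases hz : cf u 0 0 = 0
      · left
        unfold tr
        rw [ea10, hz, zero_add, eb01]
        exact h1
      · right
        unfold dt
        rw [ea10, ea01, zero_mul, sub_zero, eb01]
        exact mul_ne_zero hz h1
    · exact absurd (by rw [← h3]; exact cf_X0_mul_zero b₁ 1) h1
  · exact red_child_reg hl1 ha hb hl hu hv h h0

end Pool.Agent.SB
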