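import Pool.Agent.SB.Api
import Pool.Agent.SB.Chd
import Pool.Agent.SB.Eig

/-!
# SB Nilp: nilpotent linear part

The child of a nilpotent germ at the kernel direction is `(x u, c)` with `u = m y + ..`, `c = be x - m y ^ 2 + ..`, `m ≠ 0`.
If `be ≠ 0`, two more blow-ups lead to a germ of order two with three simple tangents; if `be = 0`, it is of order two, one tangent is simple,
and `child_mu_le` gives a smaller multiplicity at the other points.
-/

set_option autoImplicit false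

open MvPowerSeries

noncomputable section

namespace Pool.Agent.SB

/-- the coefficients of `v - (y + t) u` -/
theorem cf_c (u v : R2) (t : ℂ) (i j : ℕ) :
    cf (v - (X 1 + C t) * u) i j = cf v i j - ((if 1 ≤ j then cf u i (j - 1) else 0) + t * cf u i j) := by
  rw [cf_sub, add_mul, cf_add, cf_X1_mul, cf_C_mul]

/-- the leading coefficients of the strict transform of a series of order one -/
theorem cf_one_of_bl {t : ℂ} {a u : R2} (h : X 0 ^ 1 * u = bl t a) :
    cf u 0 0 = cf a 1 0 + t * cf a 0 1 ∧ cf u 0 1 = cf a 0 1 ∧ cf u 0 2 = 0 ∧ cf u 1 0 = cf a 2 0 + cf a 1 1 * t + cf a 0 2 * t ^ 2 := by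
  refine ⟨?_, ?_, ?_, ?_⟩
  · rw [cf_of_bl h]; simp [Finset.sum_range_succ]; ring
  · rw [cf_of_bl h]; simp [Finset.sum_range_succ]
  · exact cf_zero_of_bl h (by norm_num)
  · rw [cf_of_bl h]; simp [Finset.sum_range_succ]

/-- the leading coefficients of the strict transform of a series of order two -/
theorem cf_two_of_bl {t : ℂ} {a u : R2} (h : X 0 ^ 2 * u = bl t a) :
    cf u 0 0 = cf a 2 0 + cf a 1 1 * t + cf a 0 2 * t ^ 2 ∧ cf u 0 1 = cf a 1 1 + 2 * cf a 0 2 * t ∧ cf u 0 2 = cf a 0 2 := by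
  refine ⟨?_, ?_, ?_⟩
  · rw [cf_of_bl h]; simp [Finset.sum_range_succ]
  · rw [cf_of_bl h]; simp [Finset.sum_range_succ]; left; ring
  · rw [cf_of_bl h]; simp [Finset.sum_range_succ]

theorem ord_one {a : R2} (h : cf a 0 0 = 0) : Ord 1 a := by
  intro i j hij
  obtain ⟨rfl, rfl⟩ : i = 0 ∧ j = 0 := by omega
  exact h

theorem ord_two {a : R2} (h : cf a 0 0 = 0) (h1 : cf a 1 0 = 0) (h2 : cf a 0 1 = 0) : Ord 2 a := by
  intro i j hij
  have : (i = 0 ∧ j = 0) ∨ (i = 1 ∧ j = 0) ∨ (i = 0 ∧ j = 1) := by omega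
  rcases this with ⟨rfl, rfl⟩ | ⟨rfl, rfl⟩ | ⟨rfl, rfl⟩
  · exact h
  · exact h1
  · exact h2

/-- a germ of order two with the quadratic part `(x (be y - m x), y (2 m x - be y))` -/
theorem red_three {A B : R2} {m be : ℂ} (hm : m ≠ 0) (hbe : be ≠ 0) (hA : Ord 2 A) (hB : Ord 2 B) (a20 : cf A 2 0 = -m) (a11 : cf A 1 1 = be)
    (a02 : cf A 0 2 = 0) (b20 : cf B 2 0 = 0) (b11 : cf B 1 1 = 2 * m) (b02 : cf B 0 2 = -be) : Red A B := by
  have hn : ¬ (Ord 3 A ∧ Ord 3 B) := fun h => hbe (by rw [← a11]; exact h.1 1 1 (by norm_num))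
  refine Red.blow A B ?_ ?_
  · intro s a₁ b₁ hc
    obtain ⟨u, hu⟩ := exists_bl s hA
    obtain ⟨v, hv⟩ := exists_bl s hB
    obtain ⟨u0, u1, u2⟩ := cf_two_of_bl hu
    obtain ⟨v0, v1, v2⟩ := cf_two_of_bl hv
    by_cases h0 : cf (v - (X 1 + C s) * u) 0 0 = 0
    · refine red_child_simple (by norm_num) hA hB hn hu hv hc ?_
      intro h1
      rw [cf_c, if_neg (by norm_num), u0, v0, a20, a11, a02, b20, b11, b02] at h0
      rw [cf_c, if_pos (le_refl 1), Nat.sub_self, u0, u1, v1, a20, a11, a02, b11, b02] at h1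
      have e1 : s * (3 * m - 2 * be * s) = 0 := by linear_combination h0
      have e2 : 3 * m - 4 * be * s = 0 := by linear_combination h1
      rcases mul_eq_zero.1 e1 with e | e
      · rw [e] at e2
        exact hm (by linear_combination (1 / 3 : ℂ) * e2)
      · exact hm (by linear_combination (2 / 3 : ℂ) * e - (1 / 3 : ℂ) * e2)
    · exact red_child_reg (by norm_num) hA hB hn hu hv hc h0
  · intro a₁ b₁ hc
    have hA' := ord_sw.2 hB
    have hB' := ord_sw.2 hA
    have hn' : ¬ (Ord 3 (sw B) ∧ Ord 3 (sw A)) := fun h => hn ⟨ord_sw.1 h.2, ord_sw.1 h.1⟩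
    obtain ⟨u, hu⟩ := exists_bl 0 hA'
    obtain ⟨v, hv⟩ := exists_bl 0 hB'
    obtain ⟨u0, u1, u2⟩ := cf_two_of_bl hu
    obtain ⟨v0, v1, v2⟩ := cf_two_of_bl hv
    refine red_child_simple (by norm_num) hA' hB' hn' hu hv hc ?_
    rw [cf_c, if_pos (le_refl 1), Nat.sub_self, u0, u1, v1]
    simp only [cf_sw, a20, a11, b20, b11, b02]
    intro h1
    exact hbe (by linear_combination (1 / 2 : ℂ) * h1)

/-- the child of a nilpotent germ at the kernel direction -/
theorem red_child_nilp {a b a₁ b₁ : R2} {t : ℂ} (hf : Fin2 a b) (ha : cf a 0 0 = 0) (hb : cf b 0 0 = 0) (h12 : cf a 0 1 ≠ 0)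
    (hker : cf a 1 0 + t * cf a 0 1 = 0) (ht : tr a b = 0) (hd : dt a b = 0)
    (ih : ∀ a' b' : R2, Fin2 a' b' → mu a' b' < mu a b → Red a' b') (h : Child t a b a₁ b₁) : Red a₁ b₁ := by
  set m : ℂ := cf a 0 1 with hm
  have a10 : cf a 1 0 = -(t * m) := by linear_combination hker
  have b01 : cf b 0 1 = t * m := by
    have := ht
    unfold tr at this
    linear_combination this - a10
  have b10 : cf b 1 0 = -(t ^ 2 * m) := by
    have h2 := hd
    unfold dt at h2
    rw [a10, b01, ← hm] at h2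
    have h3 : m * (cf b 1 0 + t ^ 2 * m) = 0 := by linear_combination -h2
    rcases mul_eq_zero.1 h3 with h4 | h4
    · exact absurd h4 h12
    · linear_combination h4
  have hA := ord_one ha
  have hB := ord_one hb
  have hn : ¬ (Ord 2 a ∧ Ord 2 b) := fun h => h12 (h.1 0 1 (by norm_num))
  obtain ⟨u, hu⟩ := exists_bl t hA
  obtain ⟨v, hv⟩ := exists_bl t hB
  obtain ⟨u0, u1, u2, u3⟩ := cf_one_of_bl hu
  obtain ⟨v0, v1, v2, v3⟩ := cf_one_of_bl hv
  rw [a10, ← hm] at u0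
  rw [← hm] at u1
  rw [b10, b01] at v0
  rw [b01] at v1
  have u0' : cf u 0 0 = 0 := by rw [u0]; ring
  have v0' : cf v 0 0 = 0 := by rw [v0]; ring
  have c00 : cf (v - (X 1 + C t) * u) 0 0 = 0 := by
    rw [cf_c, if_neg (by norm_num), u0', v0']; ring
  have c01 : cf (v - (X 1 + C t) * u) 0 1 = 0 := by
    rw [cf_c, if_pos (le_refl 1), Nat.sub_self, u0', u1, v1]; ring
  have c02 : cf (v - (X 1 + C t) * u) 0 2 = -m := by
    rw [cf_c, if_pos (by norm_num), u2, v2, show (2 - 1 : ℕ) = 1 from rfl, u1]; ring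
  have hcc := child_cases (le_refl 1) hA hB hn hu hv h
  obtain ⟨hf1, hmu1⟩ := child_mu_le (n := 2) hf (le_refl 1) hA hB hn hu hv h (by rw [c02]; exact neg_ne_zero.2 h12)
  rcases hcc with ⟨rfl, rfl, -⟩ | ⟨-, h2⟩
  swap
  · exfalso
    have h3 := (X0_dvd_iff _).1 (Dvd.intro _ h2) 2
    rw [c02] at h3
    exact h12 (neg_eq_zero.1 h3)
  set B := v - (X 1 + C t) * u with hBdef
  -- the coefficients of `A = x u`
  have A0 : ∀ j, cf (X 0 * u) 0 j = 0 := fun j => by rw [cf_X0_mul, if_neg (by norm_num)]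
  have A1 : ∀ i j, cf (X 0 * u) (i + 1) j = cf u i j := fun i j => by rw [cf_X0_mul, if_pos (by omega), Nat.add_sub_cancel]
  have A10 : cf (X 0 * u) 1 0 = 0 := by rw [A1 0 0, u0']
  have A11 : cf (X 0 * u) 1 1 = m := by rw [A1 0 1, u1]
  have hAo : Ord 1 (X 0 * u) := ord_one (A0 0)
  have hBo : Ord 1 B := ord_one c00
  by_cases hbe : cf B 1 0 = 0
  · -- order two
    have hA2 : Ord 2 (X 0 * u) := ord_two (A0 0) A10 (A0 1)
    have hB2 : Ord 2 B := ord_two c00 hbe c01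
    have hn2 : ¬ (Ord 3 (X 0 * u) ∧ Ord 3 B) := fun h => h12 (by rw [← A11]; exact h.1 1 1 (by norm_num))
    refine Red.blow _ _ ?_ ?_
    · intro s a' b' hc
      obtain ⟨p, hp⟩ := exists_bl s hA2
      obtain ⟨q, hq⟩ := exists_bl s hB2
      obtain ⟨p0, p1, p2⟩ := cf_two_of_bl hp
      obtain ⟨q0, q1, q2⟩ := cf_two_of_bl hq
      have h1 : cf (q - (X 1 + C s) * p) 0 2 ≠ 0 := by
        rw [cf_c, if_pos (by norm_num), show (2 - 1 : ℕ) = 1 from rfl, p1, p2, q2, A11, A0 2, c02]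
        intro h1
        exact h12 (by linear_combination (-1 / 2 : ℂ) * h1)
      obtain ⟨hf2, hmu2⟩ := child_mu_le (n := 2) hf1 (by norm_num) hA2 hB2 hn2 hp hq hc h1
      exact ih a' b' hf2 (by omega)
    · intro a' b' hc
      have hA' := ord_sw.2 hB2
      have hB' := ord_sw.2 hA2
      have hn' : ¬ (Ord 3 (sw B) ∧ Ord 3 (sw (X 0 * u))) := fun h => hn2 ⟨ord_sw.1 h.2, ord_sw.1 h.1⟩
      obtain ⟨p, hp⟩ := exists_bl 0 hA'
      obtain ⟨q, hq⟩ := exists_bl 0 hB'
      obtain ⟨p0, p1, p2⟩ := cf_two_of_bl hp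
      obtain ⟨q0, q1, q2⟩ := cf_two_of_bl hq
      refine red_child_simple (by norm_num) hA' hB' hn' hp hq hc ?_
      rw [cf_c, if_pos (le_refl 1), Nat.sub_self, p0, p1, q1]
      simp only [cf_sw, A11, c02]
      intro h1
      exact h12 (by linear_combination (1 / 2 : ℂ) * h1)
  · -- order one
    have hn1 : ¬ (Ord 2 (X 0 * u) ∧ Ord 2 B) := fun h => hbe (h.2 1 0 (by norm_num))
    refine Red.blow _ _ ?_ ?_
    · intro s a' b' hc
      obtain ⟨p, hp⟩ := exists_bl s hAo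
      obtain ⟨q, hq⟩ := exists_bl s hBo
      obtain ⟨p0, p1, p2, p3⟩ := cf_one_of_bl hp
      obtain ⟨q0, q1, q2, q3⟩ := cf_one_of_bl hq
      refine red_child_reg (le_refl 1) hAo hBo hn1 hp hq hc ?_
      rw [cf_c, if_neg (by norm_num), p0, q0, A10, A0 1, c01]
      intro h1
      exact hbe (by linear_combination h1)
    · intro a' b' hc
      have hA' := ord_sw.2 hBo
      have hB' := ord_sw.2 hAo
      have hn' : ¬ (Ord 2 (sw B) ∧ Ord 2 (sw (X 0 * u))) := fun h => hn1 ⟨ord_sw.1 h.2, ord_sw.1 h.1⟩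
      obtain ⟨p, hp⟩ := exists_bl 0 hA'
      obtain ⟨q, hq⟩ := exists_bl 0 hB'
      obtain ⟨p0, p1, p2, p3⟩ := cf_one_of_bl hp
      obtain ⟨q0, q1, q2, q3⟩ := cf_one_of_bl hq
      have q11 : cf q 1 1 = cf (sw (X 0 * u)) 1 1 := by
        rw [cf_of_bl hq]; simp [Finset.sum_range_succ]
      have q20 : cf q 2 0 = cf (sw (X 0 * u)) 3 0 := by
        rw [cf_of_bl hq]; simp [Finset.sum_range_succ]
      simp only [cf_sw] at p0 p1 p2 p3 q0 q1 q2 q3 q11 q20
      rw [c01] at p0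
      rw [A0 1] at q0
      rw [A10] at q1
      rw [A0 2] at q3
      rw [A11] at q11
      rw [A0 3] at q20
      rw [c02] at p3
      have d02 : cf (q - (X 1 + C 0) * p) 0 2 = -cf B 1 0 := by
        rw [cf_c, if_pos (by norm_num), show (2 - 1 : ℕ) = 1 from rfl, p1, p2, q2]; ring
      have hcc := child_cases (le_refl 1) hA' hB' hn' hp hq hc
      rcases hcc with ⟨rfl, rfl, -⟩ | ⟨-, h2⟩
      swap
      · exfalso
        have h3 := (X0_dvd_iff _).1 (Dvd.intro _ h2) 2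
        rw [d02] at h3
        exact hbe (neg_eq_zero.1 h3)
      have D0 : ∀ j, cf (X 0 * p) 0 j = 0 := fun j => by rw [cf_X0_mul, if_neg (by norm_num)]
      have D1 : ∀ i j, cf (X 0 * p) (i + 1) j = cf p i j := fun i j => by rw [cf_X0_mul, if_pos (by omega), Nat.add_sub_cancel]
      have p00 : cf p 0 0 = 0 := by rw [p0]; ring
      have q00 : cf q 0 0 = 0 := by rw [q0]; ring
      have p10 : cf p 1 0 = -m := by rw [p3]; ring
      have q10 : cf q 1 0 = 0 := by rw [q3]; ring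
      refine red_three (m := m) (be := cf B 1 0) h12 hbe (ord_two (D0 0) (by rw [D1 0 0, p00]) (D0 1)) (ord_two ?_ ?_ ?_) (by rw [D1 1 0, p10])
        (by rw [D1 0 1, p1]) (D0 2) ?_ ?_ d02
      · rw [cf_c, if_neg (by norm_num), p00, q00]; ring
      · rw [cf_c, if_neg (by norm_num), p10, q10]; ring
      · rw [cf_c, if_pos (le_refl 1), Nat.sub_self, p00, q1]; ring
      · rw [cf_c, if_neg (by norm_num), q20]; ring
      · rw [cf_c, if_pos (le_refl 1), Nat.sub_self, p10, q11]; ring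

end Pool.Agent.SB
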