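import Pool.Agent.SB.Api
import Pool.Agent.SB.Mu
import Pool.Agent.SB.Blow
import Pool.Agent.SB.Chd
import Pool.Agent.SB.Eig
import Pool.Agent.SB.Nilp

/-!
# SB Fin: every germ of a vector field with an isolated singular point is reduced by finitely many blow-ups
-/

set_option autoImplicit false

open MvPowerSeries

noncomputable section

namespace Pool.Agent.SB

namespace FinP

theorem fp_ord1 {a : R2} : Ord 1 a ↔ cf a 0 0 = 0 := by
  constructor
  · intro h
    exact h 0 0 (by omega)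
  · intro h i j hij
    obtain rfl : i = 0 := by omega
    obtain rfl : j = 0 := by omega
    exact h

theorem fp_ord2 {a : R2} : Ord 2 a ↔ cf a 0 0 = 0 ∧ cf a 1 0 = 0 ∧ cf a 0 1 = 0 := by
  constructor
  · intro h
    exact ⟨h 0 0 (by omega), h 1 0 (by omega), h 0 1 (by omega)⟩
  · rintro ⟨h0, h1, h2⟩ i j hij
    rcases i with _ | _ | i
    · rcases j with _ | _ | j
      · exact h0
      · exact h2
      · omega
    · obtain rfl : j = 0 := by omega
      exact h1
    · omega

theorem cf_one {t : ℂ} {a u : R2} (h : X 0 ^ 1 * u = bl t a) : cf u 0 0 = cf a 1 0 + cf a 0 1 * t := by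
  rw [cf_of_bl h, Finset.sum_range_succ, Finset.sum_range_succ, Finset.sum_range_zero]
  simp

theorem cf_c {t : ℂ} {u v : R2} : cf (v - (X 1 + C t) * u) 0 0 = cf v 0 0 - t * cf u 0 0 := by
  rw [cf_sub, add_mul, cf_add, cf_X1_mul, cf_C_mul, if_neg (by omega), zero_add]

/-- the children of a germ with nilpotent linear part -/
theorem child {a b a₁ b₁ : R2} {t : ℂ} (hf : Fin2 a b) (ha : cf a 0 0 = 0) (hb : cf b 0 0 = 0) (hl : ¬ (Ord (1 + 1) a ∧ Ord (1 + 1) b))
    (ht : tr a b = 0) (hd : dt a b = 0) (ih : ∀ a' b' : R2, Fin2 a' b' → mu a' b' < mu a b → Red a' b')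
    (h12 : cf a 0 1 ≠ 0 ∨ cf b 1 0 ≠ 0) (h : Child t a b a₁ b₁) : Red a₁ b₁ := by
  have oa : Ord 1 a := fp_ord1.2 ha
  have ob : Ord 1 b := fp_ord1.2 hb
  obtain ⟨u, hu⟩ := exists_bl t oa
  obtain ⟨v, hv⟩ := exists_bl t ob
  by_cases h0 : cf (v - (X 1 + C t) * u) 0 0 ≠ 0
  · exact red_child_reg le_rfl oa ob hl hu hv h h0
  · rw [not_not, cf_c, cf_one hu, cf_one hv] at h0
    unfold tr at ht
    unfold dt at hd
    -- the direction is an eigendirection, hence in the kernel
    have e1 : cf b 0 1 = -cf a 1 0 := by linear_combination ht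
    rw [e1] at h0 hd
    have hk : (cf a 1 0 + cf a 0 1 * t) ^ 2 = 0 := by
      have : (cf a 1 0 + cf a 0 1 * t) ^ 2 = -(cf a 1 0 * -cf a 1 0 - cf a 0 1 * cf b 1 0) -
          cf a 0 1 * (cf b 1 0 + -cf a 1 0 * t - t * (cf a 1 0 + cf a 0 1 * t)) := by ring
      rw [this, hd, h0]
      ring
    have hk' : cf a 1 0 + cf a 0 1 * t = 0 := pow_eq_zero_iff (two_ne_zero) |>.1 hk
    by_cases h01 : cf a 0 1 = 0
    · -- impossible
      exfalso
      rw [h01, zero_mul, add_zero] at hk'
      rw [h01, hk'] at h0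
      rcases h12 with h12 | h12
      · exact h12 h01
      · apply h12
        linear_combination h0
    · exact red_child_nilp hf ha hb h01 (by linear_combination hk') ht (by unfold dt; rw [e1]; exact hd) ih h

end FinP

open FinP

/-- **Seidenberg.**  Every germ with an isolated singular point is reduced by finitely many blow-ups. -/
theorem red_of_fin2 (a b : R2) (hf : Fin2 a b) : Red a b := by
  obtain ⟨m, hm⟩ : ∃ m, mu a b = m := ⟨_, rfl⟩
  induction m using Nat.strong_induction_on generalizing a b with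
  | _ m ih =>
  subst hm
  have ih' : ∀ a' b' : R2, Fin2 a' b' → mu a' b' < mu a b → Red a' b' := fun a' b' h1 h2 => ih _ h2 a' b' h1 rfl
  by_cases h00 : cf a 0 0 ≠ 0 ∨ cf b 0 0 ≠ 0
  · exact Red.reg _ _ h00
  push Not at h00
  obtain ⟨ha, hb⟩ := h00
  obtain ⟨l, hla, hlb, hl⟩ := exists_order hf
  have oa : Ord 1 a := fp_ord1.2 ha
  have ob : Ord 1 b := fp_ord1.2 hb
  rcases l with _ | _ | l
  · exact absurd ⟨oa, ob⟩ hl
  · -- order one
    by_cases he : tr a b ≠ 0 ∨ dt a b ≠ 0
    · exact red_of_eig a b ha hb he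
    push Not at he
    obtain ⟨ht, hd⟩ := he
    have hfs : Fin2 (sw b) (sw a) := (fin2_swap a b).2 hf
    have hmu : mu (sw b) (sw a) = mu a b := mu_swap a b
    have hts : tr (sw b) (sw a) = 0 := by
      rw [← ht]
      unfold tr
      rw [cf_sw, cf_sw, add_comm]
    have hds : dt (sw b) (sw a) = 0 := by
      rw [← hd]
      unfold dt
      rw [cf_sw, cf_sw, cf_sw, cf_sw]
      ring
    -- the linear part is not zero
    have h12 : cf a 0 1 ≠ 0 ∨ cf b 1 0 ≠ 0 := by
      by_contra hcon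
      push Not at hcon
      obtain ⟨h1, h2⟩ := hcon
      unfold tr at ht
      unfold dt at hd
      have e1 : cf b 0 1 = -cf a 1 0 := by linear_combination ht
      rw [h1, e1] at hd
      have e2 : cf a 1 0 ^ 2 = 0 := by linear_combination -hd
      have e3 : cf a 1 0 = 0 := pow_eq_zero_iff (two_ne_zero) |>.1 e2
      refine hl ⟨fp_ord2.2 ⟨ha, e3, h1⟩, fp_ord2.2 ⟨hb, h2, ?_⟩⟩
      rw [e1, e3, neg_zero]
    refine Red.blow a b (fun t a₁ b₁ h => child hf ha hb hl ht hd ih' h12 h) (fun a₁ b₁ h => ?_)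
    refine child hfs (by rw [cf_sw]; exact hb) (by rw [cf_sw]; exact ha) ?_ hts hds (fun a' b' h1 h2 => ih' a' b' h1 (by rwa [hmu] at h2)) ?_ h
    · rw [ord_sw, ord_sw]
      exact fun h => hl ⟨h.2, h.1⟩
    · rw [cf_sw, cf_sw]
      exact h12.symm
  · -- order at least two
    have hfs : Fin2 (sw b) (sw a) := (fin2_swap a b).2 hf
    refine Red.blow a b (fun t a₁ b₁ h => ?_) (fun a₁ b₁ h => ?_)
    · obtain ⟨h1, h2⟩ := child_mu hf (by omega) hla hlb hl h
      exact ih' _ _ h1 h2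
    · obtain ⟨h1, h2⟩ := child_mu (l := l + 1 + 1) hfs (by omega) (ord_sw.2 hlb) (ord_sw.2 hla) (by
        rw [ord_sw, ord_sw]
        exact fun h => hl ⟨h.2, h.1⟩) h
      rw [mu_swap] at h2
      exact ih' _ _ h1 h2

end Pool.Agent.SB
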