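import Pool.Agent.SB.Defs

/-!
# SB Api: coefficients of formal power series in two variables, of their transforms by the blow-up and by the swap
-/

set_option autoImplicit false

open MvPowerSeries

noncomputable section

namespace Pool.Agent.SB

theorem ex_eq (d : Fin 2 →₀ ℕ) : ex (d 0) (d 1) = d := by
  ext i
  fin_cases i <;> simp [ex]

@[simp] theorem ex_zero (i j : ℕ) : ex i j 0 = i := by simp [ex]

@[simp] theorem ex_one (i j : ℕ) : ex i j 1 = j := by simp [ex]

theorem ex_inj {i j k l : ℕ} : ex i j = ex k l ↔ i = k ∧ j = l := by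
  constructor
  · intro h
    exact ⟨by simpa using DFunLike.congr_fun h 0, by simpa using DFunLike.congr_fun h 1⟩
  · rintro ⟨rfl, rfl⟩
    rfl

theorem ex_le {i j k l : ℕ} : ex i j ≤ ex k l ↔ i ≤ k ∧ j ≤ l := by
  constructor
  · intro h
    exact ⟨by simpa using h 0, by simpa using h 1⟩
  · rintro ⟨h0, h1⟩ s
    fin_cases s
    · simpa using h0
    · simpa using h1

theorem ex_sub (i j k l : ℕ) : ex i j - ex k l = ex (i - k) (j - l) := by
  ext s
  fin_cases s <;> simp [ex]

theorem ex_add (i j k l : ℕ) : ex i j + ex k l = ex (i + k) (j + l) := by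
  ext s
  fin_cases s <;> simp [ex]

theorem cf_ext {a b : R2} (h : ∀ i j, cf a i j = cf b i j) : a = b := by
  ext d
  have := h (d 0) (d 1)
  rwa [cf, cf, ex_eq] at this

theorem cf_add (a b : R2) (i j : ℕ) : cf (a + b) i j = cf a i j + cf b i j := by
  simp [cf]

theorem cf_sub (a b : R2) (i j : ℕ) : cf (a - b) i j = cf a i j - cf b i j := by
  simp [cf]

theorem cf_C_mul (t : ℂ) (a : R2) (i j : ℕ) : cf (C t * a) i j = t * cf a i j := by
  simp [cf]

theorem cf_mul (a b : R2) (i j : ℕ) :
    cf (a * b) i j = ∑ p ∈ Finset.HasAntidiagonal.antidiagonal i, ∑ q ∈ Finset.HasAntidiagonal.antidiagonal j, cf a p.1 q.1 * cf b p.2 q.2 := by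
  classical
  rw [cf, coeff_mul, ← Finset.sum_product']
  refine Finset.sum_bij' (fun p _ => ((p.1 0, p.2 0), (p.1 1, p.2 1))) (fun r _ => (ex r.1.1 r.2.1, ex r.1.2 r.2.2)) ?_ ?_ ?_ ?_ ?_
  · intro p hp
    rw [Finset.HasAntidiagonal.mem_antidiagonal] at hp
    simp only [Finset.mem_product, Finset.HasAntidiagonal.mem_antidiagonal]
    exact ⟨by simpa using DFunLike.congr_fun hp 0, by simpa using DFunLike.congr_fun hp 1⟩
  · intro r hr
    simp only [Finset.mem_product, Finset.HasAntidiagonal.mem_antidiagonal] at hr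
    rw [Finset.HasAntidiagonal.mem_antidiagonal, ex_add, hr.1, hr.2]
  · intro p _
    simp only [ex_eq]
  · intro r _
    simp
  · intro p _
    simp only [cf, ex_eq]

theorem cf_X0_pow_mul (n : ℕ) (a : R2) (i j : ℕ) : cf (X 0 ^ n * a) i j = if n ≤ i then cf a (i - n) j else 0 := by
  have h : (Finsupp.single (0 : Fin 2) n : Fin 2 →₀ ℕ) = ex n 0 := by simp [ex]
  rw [cf, X_pow_eq, coeff_monomial_mul, h, ex_sub]
  by_cases hn : n ≤ i
  · rw [if_pos (ex_le.2 ⟨hn, Nat.zero_le _⟩), if_pos hn, one_mul, Nat.sub_zero, cf]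
  · rw [if_neg (fun hh => hn (ex_le.1 hh).1), if_neg hn]

theorem cf_X0_mul (a : R2) (i j : ℕ) : cf (X 0 * a) i j = if 1 ≤ i then cf a (i - 1) j else 0 := by
  simpa using cf_X0_pow_mul 1 a i j

theorem cf_X1_pow_mul (n : ℕ) (a : R2) (i j : ℕ) : cf (X 1 ^ n * a) i j = if n ≤ j then cf a i (j - n) else 0 := by
  have h : (Finsupp.single (1 : Fin 2) n : Fin 2 →₀ ℕ) = ex 0 n := by simp [ex]
  rw [cf, X_pow_eq, coeff_monomial_mul, h, ex_sub]
  by_cases hn : n ≤ j
  · rw [if_pos (ex_le.2 ⟨Nat.zero_le _, hn⟩), if_pos hn, one_mul, Nat.sub_zero, cf]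
  · rw [if_neg (fun hh => hn (ex_le.1 hh).2), if_neg hn]

theorem cf_X1_mul (a : R2) (i j : ℕ) : cf (X 1 * a) i j = if 1 ≤ j then cf a i (j - 1) else 0 := by
  simpa using cf_X1_pow_mul 1 a i j

theorem X0_pow_dvd_iff (n : ℕ) (a : R2) : X 0 ^ n ∣ a ↔ ∀ i j, i < n → cf a i j = 0 := by
  rw [X_pow_dvd_iff]
  constructor
  · intro h i j hi
    exact h _ (by simpa using hi)
  · intro h d hd
    have := h (d 0) (d 1) hd
    rwa [cf, ex_eq] at this

theorem X0_dvd_iff (a : R2) : X 0 ∣ a ↔ ∀ j, cf a 0 j = 0 := by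
  rw [← pow_one (X 0 : R2), X0_pow_dvd_iff]
  constructor
  · intro h j
    exact h 0 j one_pos
  · intro h i j hi
    obtain rfl : i = 0 := by omega
    exact h j

theorem cf_sw (a : R2) (i j : ℕ) : cf (sw a) i j = cf a j i := by
  have h : ex i j = Finsupp.embDomain (Equiv.swap (0 : Fin 2) 1).toEmbedding (ex j i) := by
    rw [Finsupp.embDomain_eq_mapDomain]
    simp only [ex, Finsupp.mapDomain_add, Finsupp.mapDomain_single, Equiv.coe_toEmbedding, Equiv.swap_apply_left, Equiv.swap_apply_right]
    rw [add_comm]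
  rw [cf, cf, h]
  exact coeff_embDomain_rename (Equiv.swap (0 : Fin 2) 1).toEmbedding a (ex j i)

theorem sw_sw (a : R2) : sw (sw a) = a := cf_ext fun i j => by rw [cf_sw, cf_sw]

theorem ord_sw {l : ℕ} {a : R2} : Ord l (sw a) ↔ Ord l a := by
  constructor
  · intro h i j hij
    rw [← cf_sw]
    exact h j i (by omega)
  · intro h i j hij
    rw [cf_sw]
    exact h j i (by omega)

/-- the coefficients of the powers of `y + t` -/
theorem cf_pow_add (t : ℂ) (n i j : ℕ) : cf ((X 1 + C t : R2) ^ n) i j = if i = 0 then (n.choose j : ℂ) * t ^ (n - j) else 0 := by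
  induction n generalizing i j with
  | zero =>
    rw [pow_zero, cf, coeff_one]
    by_cases hi : i = 0
    · subst hi
      by_cases hj : j = 0
      · subst hj
        have : ex 0 0 = 0 := by simp [ex]
        simp [this]
      · have : ex 0 j ≠ 0 := fun h => hj (by simpa using DFunLike.congr_fun h 1)
        obtain ⟨k, rfl⟩ := Nat.exists_eq_succ_of_ne_zero hj
        simp [this]
    · have : ex i j ≠ 0 := fun h => hi (by simpa using DFunLike.congr_fun h 0)
      simp [this, hi]
  | succ n ih =>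
    rw [pow_succ', add_mul, cf_add, cf_X1_mul, cf_C_mul, ih, ih]
    by_cases hi : i = 0
    · subst hi
      rcases Nat.eq_zero_or_pos j with rfl | hj
      · simp only [if_true, Nat.choose_zero_right, Nat.cast_one, one_mul, Nat.sub_zero]
        simp [pow_succ']
      · obtain ⟨k, rfl⟩ : ∃ k, j = k + 1 := ⟨j - 1, by omega⟩
        rw [Nat.choose_succ_succ', Nat.cast_add, Nat.add_sub_cancel, show n + 1 - (k + 1) = n - k by omega]
        simp only [if_true, le_add_iff_nonneg_left, Nat.zero_le]
        by_cases hk : k + 1 ≤ n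
        · have : t ^ (n - k) = t * t ^ (n - (k + 1)) := by
            rw [← pow_succ']
            congr 1
            omega
          rw [this]
          ring
        · rw [Nat.choose_eq_zero_of_lt (by omega : n < k + 1)]
          simp
    · simp [hi]

/-- the coefficients of the blow-up -/
theorem cf_bl (t : ℂ) (a : R2) (i j : ℕ) :
    cf (bl t a) i j = ∑ k ∈ Finset.range (i + 1), cf a (i - k) k * (k.choose j : ℂ) * t ^ (k - j) := by
  classical
  have hterm : ∀ d : Fin 2 →₀ ℕ, coeff (ex i j) (d.prod fun s e => ((![X 0, X 0 * (X 1 + C t)] : Fin 2 → R2) s) ^ e) =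
      if d 0 + d 1 = i then ((d 1).choose j : ℂ) * t ^ (d 1 - j) else 0 := by
    intro d
    have h1 : (d.prod fun s e => ((![X 0, X 0 * (X 1 + C t)] : Fin 2 → R2) s) ^ e) = X 0 ^ (d 0 + d 1) * (X 1 + C t) ^ (d 1) := by
      rw [Finsupp.prod_fintype _ _ (fun s => pow_zero _), Fin.prod_univ_two]
      simp only [Matrix.cons_val_zero, Matrix.cons_val_one]
      rw [mul_pow, pow_add]
      ring
    rw [h1]
    have h2 := cf_X0_pow_mul (d 0 + d 1) ((X 1 + C t : R2) ^ (d 1)) i j
    rw [cf] at h2
    rw [h2]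
    by_cases h : d 0 + d 1 = i
    · rw [if_pos h.le, if_pos h, cf_pow_add, if_pos (by omega)]
    · by_cases h' : d 0 + d 1 ≤ i
      · rw [if_pos h', if_neg h, cf_pow_add, if_neg (by omega)]
      · rw [if_neg h', if_neg h]
  rw [cf, bl, substAlgHom_apply, coeff_subst (hasSubst_bl t)]
  have hinj : Set.InjOn (fun k : ℕ => ex (i - k) k) (Finset.range (i + 1) : Set ℕ) := fun k _ l _ h => (ex_inj.1 h).2
  rw [finsum_eq_sum_of_support_subset (s := (Finset.range (i + 1)).image fun k => ex (i - k) k)]
  · rw [Finset.sum_image (fun k hk l hl h => hinj hk hl h)]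
    refine Finset.sum_congr rfl fun k hk => ?_
    rw [Finset.mem_range] at hk
    rw [hterm]
    have h3 : ex (i - k) k 0 + ex (i - k) k 1 = i := by
      rw [ex_zero, ex_one]
      omega
    rw [if_pos h3, ex_one, smul_eq_mul, cf]
    ring
  · intro d hd
    rw [Function.mem_support, hterm] at hd
    have h4 : d 0 + d 1 = i := by
      by_contra h
      rw [if_neg h, smul_zero] at hd
      exact hd rfl
    rw [Finset.mem_coe, Finset.mem_image]
    refine ⟨d 1, Finset.mem_range.2 (by omega), ?_⟩
    rw [show i - d 1 = d 0 by omega, ex_eq]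

/-- the coefficients of the strict transform -/
theorem cf_of_bl {t : ℂ} {l : ℕ} {a u : R2} (h : X 0 ^ l * u = bl t a) (i j : ℕ) :
    cf u i j = ∑ k ∈ Finset.range (i + l + 1), cf a (i + l - k) k * (k.choose j : ℂ) * t ^ (k - j) := by
  rw [← cf_bl t a (i + l) j, ← h, cf_X0_pow_mul, if_pos (Nat.le_add_left _ _), Nat.add_sub_cancel]

/-- the strict transform exists -/
theorem exists_bl (t : ℂ) {l : ℕ} {a : R2} (h : Ord l a) : ∃ u, X 0 ^ l * u = bl t a := by
  have : X 0 ^ l ∣ bl t a := by
    rw [X0_pow_dvd_iff]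
    intro i j hi
    rw [cf_bl]
    refine Finset.sum_eq_zero fun k hk => ?_
    rw [Finset.mem_range] at hk
    rw [h (i - k) k (by omega)]
    simp
  obtain ⟨u, hu⟩ := this
  exact ⟨u, hu.symm⟩

/-- on the exceptional line it is a polynomial of degree at most `l` -/
theorem cf_zero_of_bl {t : ℂ} {l : ℕ} {a u : R2} (h : X 0 ^ l * u = bl t a) {j : ℕ} (hj : l < j) : cf u 0 j = 0 := by
  rw [cf_of_bl h]
  refine Finset.sum_eq_zero fun k hk => ?_
  rw [Finset.mem_range] at hk
  rw [Nat.choose_eq_zero_of_lt (by omega : k < j)]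
  simp

/-- its leading part vanishes only if the order is bigger -/
theorem ord_succ_of_dvd {t : ℂ} {l : ℕ} {a u : R2} (ha : Ord l a) (h : X 0 ^ l * u = bl t a) (hu : X 0 ∣ u) : Ord (l + 1) a := by
  rw [X0_dvd_iff] at hu
  have key : ∀ n j : ℕ, l - n ≤ j → j ≤ l → cf a (l - j) j = 0 := by
    intro n
    induction n with
    | zero =>
      intro j h1 h2
      obtain rfl : j = l := by omega
      have h3 := hu j
      rw [cf_of_bl h, Finset.sum_eq_single j] at h3
      · simpa using h3
      · intro k hk hkj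
        rw [Finset.mem_range] at hk
        rw [Nat.choose_eq_zero_of_lt (by omega : k < j)]
        simp
      · intro hj
        exact absurd (Finset.mem_range.2 (by omega)) hj
    | succ n ih =>
      intro j h1 h2
      by_cases h3 : l - n ≤ j
      · exact ih j h3 h2
      have h4 := hu j
      rw [cf_of_bl h, Finset.sum_eq_single j] at h4
      · simpa using h4
      · intro k hk hkj
        rw [Finset.mem_range] at hk
        rcases lt_or_gt_of_ne hkj with h5 | h5
        · rw [Nat.choose_eq_zero_of_lt h5]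
          simp
        · rw [Nat.zero_add, ih k (by omega) (by omega)]
          simp
      · intro hj
        exact absurd (Finset.mem_range.2 (by omega)) hj
  intro i j hij
  by_cases h1 : i + j < l
  · exact ha i j h1
  have h2 := key l j (by omega) (by omega)
  rwa [show l - j = i by omega] at h2

end Pool.Agent.SB
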