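import Mathlib

/-!
# SB Defs: reduction of singularities of germs of plane vector fields (Seidenberg), formal side

A germ of a vector field is a pair `(a, b)` of formal power series in two variables `x = X 0`, `y = X 1` (`v x = a`, `v y = b`).
Blow-up at the direction `(1 : t)`: coordinates `x, y` with old `y = x (y + t)`.
-/

set_option autoImplicit false

open MvPowerSeries

noncomputable section

namespace Pool.Agent.SB

/-- formal power series in `x = X 0`, `y = X 1` -/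
abbrev R2 := MvPowerSeries (Fin 2) ℂ

/-- the exponent `(i, j)` -/
def ex (i j : ℕ) : Fin 2 →₀ ℕ := Finsupp.single 0 i + Finsupp.single 1 j

/-- the coefficient of `x ^ i y ^ j` -/
def cf (a : R2) (i j : ℕ) : ℂ := coeff (ex i j) a

theorem hasSubst_bl (t : ℂ) : HasSubst (S := ℂ) (![X 0, X 0 * (X 1 + C t)] : Fin 2 → R2) :=
  hasSubst_of_constantCoeff_zero fun i => by fin_cases i <;> simp

/-- `f (x, y) ↦ f (x, x (y + t))` -/
def bl (t : ℂ) : R2 →ₐ[ℂ] R2 := substAlgHom (hasSubst_bl t)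

/-- `f (x, y) ↦ f (y, x)` -/
def sw : R2 ≃ₐ[ℂ] R2 := renameEquiv ℂ (Equiv.swap 0 1)

/-- finite intersection multiplicity -/
def Fin2 (a b : R2) : Prop := Module.Finite ℂ (R2 ⧸ Ideal.span {a, b})

/-- the intersection multiplicity -/
def mu (a b : R2) : ℕ := Module.finrank ℂ (R2 ⧸ Ideal.span {a, b})

/-- order at least `l` -/
def Ord (l : ℕ) (a : R2) : Prop := ∀ i j, i + j < l → cf a i j = 0

/-- `(a₁, b₁)` is the saturated transform of `(a, b)` at the point `t` of the exceptional line -/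
def Child (t : ℂ) (a b a₁ b₁ : R2) : Prop :=
  ∃ e : ℕ, X 0 ^ e * a₁ = bl t a ∧ X 0 ^ (e + 1) * b₁ = bl t b - (X 1 + C t) * bl t a ∧ ¬ (X 0 ∣ a₁ ∧ X 0 ∣ b₁)

/-- the linear part at `0` -/
def tr (a b : R2) : ℂ := cf a 1 0 + cf b 0 1

def dt (a b : R2) : ℂ := cf a 1 0 * cf b 0 1 - cf a 0 1 * cf b 1 0

/-- elementary and reduced: eigenvalues `λ ≠ 0` and `κ`, with `κ / λ` not a positive rational number -/
def Elem (a b : R2) : Prop :=
  cf a 0 0 = 0 ∧ cf b 0 0 = 0 ∧ ∃ l k : ℂ, l + k = tr a b ∧ l * k = dt a b ∧ l ≠ 0 ∧ ∀ p q : ℕ, 0 < p → 0 < q → (p : ℂ) * l ≠ q * k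

/-- reducible by finitely many blow-ups -/
inductive Red : R2 → R2 → Prop
  | reg (a b : R2) : (cf a 0 0 ≠ 0 ∨ cf b 0 0 ≠ 0) → Red a b
  | elem (a b : R2) : Elem a b → Red a b
  | blow (a b : R2) : (∀ t a₁ b₁, Child t a b a₁ b₁ → Red a₁ b₁) → (∀ a₁ b₁, Child 0 (sw b) (sw a) a₁ b₁ → Red a₁ b₁) → Red a b

end Pool.Agent.SB
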