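import Pool.Agent.SB.Defs

/-!
# SB Stub: all statements (note 4557, part (5))

Paper proof. `R = ℂ⟦x, y⟧`, `mu a b = dim R / (a, b)`.
(A) `mu_blow` (helper74's proof by linear algebra, message of 18:25Z, or Weierstrass + determinants).
(B) `child_mu`: invariant exceptional line: child `(x u, c)`, `c = v - (y + t) u`, `mu ≤ mu (x, c) + mu (u, c)`, `mu (u, c) = mu (u, v) ≤ mu - l ^ 2`,
`mu (x, c) ≤ ord c (0, y) ≤ l + 1`; dicritical: child `(u, c / x)`, `mu ≤ mu (u, c) = mu (u, v)`.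
(C) `red_of_eig` (two eigenvalues not both `0`), `red_child_nilp` (nilpotent linear part), `red_of_fin2` (induction on `mu`).
-/

set_option autoImplicit false

open MvPowerSeries

noncomputable section

namespace Pool.Agent.SB

/-! ### module SB/Api : coefficients (helper70) -/

theorem cf_ext {a b : R2} (h : ∀ i j, cf a i j = cf b i j) : a = b := by sorry

theorem cf_add (a b : R2) (i j : ℕ) : cf (a + b) i j = cf a i j + cf b i j := by sorry

theorem cf_sub (a b : R2) (i j : ℕ) : cf (a - b) i j = cf a i j - cf b i j := by sorry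

theorem cf_C_mul (t : ℂ) (a : R2) (i j : ℕ) : cf (C t * a) i j = t * cf a i j := by sorry

theorem cf_mul (a b : R2) (i j : ℕ) :
    cf (a * b) i j = ∑ p ∈ Finset.HasAntidiagonal.antidiagonal i, ∑ q ∈ Finset.HasAntidiagonal.antidiagonal j, cf a p.1 q.1 * cf b p.2 q.2 := by sorry

theorem cf_X0_pow_mul (n : ℕ) (a : R2) (i j : ℕ) : cf (X 0 ^ n * a) i j = if n ≤ i then cf a (i - n) j else 0 := by sorry

theorem cf_X0_mul (a : R2) (i j : ℕ) : cf (X 0 * a) i j = if 1 ≤ i then cf a (i - 1) j else 0 := by sorry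

theorem cf_X1_mul (a : R2) (i j : ℕ) : cf (X 1 * a) i j = if 1 ≤ j then cf a i (j - 1) else 0 := by sorry

theorem X0_pow_dvd_iff (n : ℕ) (a : R2) : X 0 ^ n ∣ a ↔ ∀ i j, i < n → cf a i j = 0 := by sorry

theorem X0_dvd_iff (a : R2) : X 0 ∣ a ↔ ∀ j, cf a 0 j = 0 := by sorry

theorem cf_sw (a : R2) (i j : ℕ) : cf (sw a) i j = cf a j i := by sorry

theorem sw_sw (a : R2) : sw (sw a) = a := by sorry

theorem ord_sw {l : ℕ} {a : R2} : Ord l (sw a) ↔ Ord l a := by sorry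

/-- the coefficients of the blow-up -/
theorem cf_bl (t : ℂ) (a : R2) (i j : ℕ) :
    cf (bl t a) i j = ∑ k ∈ Finset.range (i + 1), cf a (i - k) k * (k.choose j : ℂ) * t ^ (k - j) := by sorry

/-- the coefficients of the strict transform -/
theorem cf_of_bl {t : ℂ} {l : ℕ} {a u : R2} (h : X 0 ^ l * u = bl t a) (i j : ℕ) :
    cf u i j = ∑ k ∈ Finset.range (i + l + 1), cf a (i + l - k) k * (k.choose j : ℂ) * t ^ (k - j) := by sorry

/-- the strict transform exists -/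
theorem exists_bl (t : ℂ) {l : ℕ} {a : R2} (h : Ord l a) : ∃ u, X 0 ^ l * u = bl t a := by sorry

/-- on the exceptional line it is a polynomial of degree at most `l` -/
theorem cf_zero_of_bl {t : ℂ} {l : ℕ} {a u : R2} (h : X 0 ^ l * u = bl t a) {j : ℕ} (hj : l < j) : cf u 0 j = 0 := by sorry

/-- its leading part vanishes only if the order is bigger -/
theorem ord_succ_of_dvd {t : ℂ} {l : ℕ} {a u : R2} (ha : Ord l a) (h : X 0 ^ l * u = bl t a) (hu : X 0 ∣ u) : Ord (l + 1) a := by sorry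

/-! ### module SB/Mu : intersection multiplicities (helper40) -/

theorem mu_mul {p q c : R2} (hp : Fin2 p c) (hq : Fin2 q c) : Fin2 (p * q) c ∧ mu (p * q) c ≤ mu p c + mu q c := by sorry

theorem mu_X0 {c : R2} {n : ℕ} (h : cf c 0 n ≠ 0) : Fin2 (X 0) c ∧ mu (X 0) c ≤ n := by sorry

theorem fin2_sub (a b r : R2) : Fin2 a (b - r * a) ↔ Fin2 a b := by sorry

theorem mu_sub (a b r : R2) : mu a (b - r * a) = mu a b := by sorry

theorem mu_of_mul {a c p : R2} (h : Fin2 a (p * c)) : Fin2 a c ∧ mu a c ≤ mu a (p * c) := by sorry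

theorem fin2_swap (a b : R2) : Fin2 (sw b) (sw a) ↔ Fin2 a b := by sorry

theorem mu_swap (a b : R2) : mu (sw b) (sw a) = mu a b := by sorry

/-- a finite multiplicity and two series of positive order: not both vanish to infinite order -/
theorem exists_order {a b : R2} (h : Fin2 a b) : ∃ l : ℕ, Ord l a ∧ Ord l b ∧ ¬ (Ord (l + 1) a ∧ Ord (l + 1) b) := by sorry

/-! ### module SB/Blow : the multiplicity of the strict transforms (helper74) -/

theorem mu_blow {a b u v : R2} {t : ℂ} {l : ℕ} (hf : Fin2 a b) (ha : Ord l a) (hb : Ord l b) (hl : ¬ (Ord (l + 1) a ∧ Ord (l + 1) b))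
    (hu : X 0 ^ l * u = bl t a) (hv : X 0 ^ l * v = bl t b) : Fin2 u v ∧ mu u v + l * l ≤ mu a b := by sorry

/-! ### module SB/Chd : the child (helper6) -/

theorem child_cases {a b a₁ b₁ u v : R2} {t : ℂ} {l : ℕ} (hl1 : 1 ≤ l) (ha : Ord l a) (hb : Ord l b) (hl : ¬ (Ord (l + 1) a ∧ Ord (l + 1) b))
    (hu : X 0 ^ l * u = bl t a) (hv : X 0 ^ l * v = bl t b) (h : Child t a b a₁ b₁) :
    (a₁ = X 0 * u ∧ b₁ = v - (X 1 + C t) * u ∧ ¬ X 0 ∣ b₁) ∨ (a₁ = u ∧ X 0 * b₁ = v - (X 1 + C t) * u) := by sorry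

/-- a bound for the child if the coefficient of `y ^ n` in `c (0, y)` is not `0` -/
theorem child_mu_le {a b a₁ b₁ u v : R2} {t : ℂ} {l n : ℕ} (hf : Fin2 a b) (hl1 : 1 ≤ l) (ha : Ord l a) (hb : Ord l b)
    (hl : ¬ (Ord (l + 1) a ∧ Ord (l + 1) b)) (hu : X 0 ^ l * u = bl t a) (hv : X 0 ^ l * v = bl t b) (h : Child t a b a₁ b₁)
    (hn : cf (v - (X 1 + C t) * u) 0 n ≠ 0) : Fin2 a₁ b₁ ∧ mu a₁ b₁ + l * l ≤ mu a b + n := by sorry

theorem child_mu {a b a₁ b₁ : R2} {t : ℂ} {l : ℕ} (hf : Fin2 a b) (h2 : 2 ≤ l) (ha : Ord l a) (hb : Ord l b)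
    (hl : ¬ (Ord (l + 1) a ∧ Ord (l + 1) b)) (h : Child t a b a₁ b₁) : Fin2 a₁ b₁ ∧ mu a₁ b₁ < mu a b := by sorry

/-! ### module SB/Eig : linear part with a nonzero eigenvalue (helper35) -/

/-- the tangent direction `(1 : t)` is not a root of `P`: the child is regular -/
theorem red_child_reg {a b a₁ b₁ u v : R2} {t : ℂ} {l : ℕ} (hl1 : 1 ≤ l) (ha : Ord l a) (hb : Ord l b) (hl : ¬ (Ord (l + 1) a ∧ Ord (l + 1) b))
    (hu : X 0 ^ l * u = bl t a) (hv : X 0 ^ l * v = bl t b) (h : Child t a b a₁ b₁) (h0 : cf (v - (X 1 + C t) * u) 0 0 ≠ 0) : Red a₁ b₁ := by sorry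

theorem red_of_eig (a b : R2) (ha : cf a 0 0 = 0) (hb : cf b 0 0 = 0) (h : tr a b ≠ 0 ∨ dt a b ≠ 0) : Red a b := by sorry

/-- a simple root of `P` -/
theorem red_child_simple {a b a₁ b₁ u v : R2} {t : ℂ} {l : ℕ} (hl1 : 1 ≤ l) (ha : Ord l a) (hb : Ord l b)
    (hl : ¬ (Ord (l + 1) a ∧ Ord (l + 1) b)) (hu : X 0 ^ l * u = bl t a) (hv : X 0 ^ l * v = bl t b) (h : Child t a b a₁ b₁)
    (h1 : cf (v - (X 1 + C t) * u) 0 1 ≠ 0) : Red a₁ b₁ := by sorry

/-! ### module SB/Nilp : nilpotent linear part (helper42) -/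

/-- the child of a nilpotent germ at the kernel direction -/
theorem red_child_nilp {a b a₁ b₁ : R2} {t : ℂ} (hf : Fin2 a b) (ha : cf a 0 0 = 0) (hb : cf b 0 0 = 0) (h12 : cf a 0 1 ≠ 0)
    (hker : cf a 1 0 + t * cf a 0 1 = 0) (ht : tr a b = 0) (hd : dt a b = 0)
    (ih : ∀ a' b' : R2, Fin2 a' b' → mu a' b' < mu a b → Red a' b') (h : Child t a b a₁ b₁) : Red a₁ b₁ := by sorry

/-! ### module SB/Fin : the theorem (helper87) -/

/-- **Seidenberg.**  Every germ with an isolated singular point is reduced by finitely many blow-ups. -/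
theorem red_of_fin2 (a b : R2) (hf : Fin2 a b) : Red a b := by sorry

end Pool.Agent.SB
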